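import Pool.Agent.Helper43.NG.THN

/-!
# Part RDN of project NG (helper43), page MP_d69e80_al
-/

set_option autoImplicit false

namespace Pool.Agent.Helper43.NG

open scoped Pointwise commutatorElement
open Subgroup
open Pool.Agent.N600.G3 (Crossed AA S_ALG S_CNT f_one)

universe u

lemma cn_comm_mem {G : Type u} [Group G] (Γ : Subgroup G) [Γ.Normal] (g : G) {x : Γ}
    (hx : x ∈ commutator Γ) : cn Γ g x ∈ commutator Γ := by
  have h : (commutator Γ).map (cn Γ g) ≤ commutator Γ := by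
    rw [_root_.commutator_def Γ, map_commutator]
    exact commutator_mono le_top le_top
  exact h ⟨x, hx, rfl⟩

/-- a crossed homomorphism from an eigenfunction on `Γ' / Γ''` -/
lemma cross_of_alg {G : Type u} [Group G] (W : Set G) (Γ : Subgroup G) [Γ.Normal]
    (hDD : W ⊆ (Γ : Set G)) (hle : Γ ≤ normalClosure W)
    (F : Type u) [Field F] (χ : Γ →* Fˣ) (f : Γ → F) (B : Subgroup Fˣ)
    (hf1 : ∀ x ∈ commutator Γ, ∀ y ∈ commutator Γ, f (x * y) = f x + f y)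
    (hf2 : ∀ m, ∀ x ∈ commutator Γ, f (m * x * m⁻¹) = (χ m : F) * f x)
    (hne : ∃ x ∈ commutator Γ, f x ≠ 0) (hm : ∃ m, χ m ∉ B) :
    ∃ (g : G) (b : Γ → F), Crossed (χ.comp (cn Γ g)) b ∧
      ∃ c : Γ, (c : G) ∈ W ∧ b c = 0 ∧ χ (cn Γ g c) ∉ B ∧ ∃ m, b m ≠ 0 := by
  obtain ⟨x0, hx0, hfx0⟩ := hne
  obtain ⟨m0, hm0⟩ := hm
  have hex : ∃ (g : G) (c : Γ), (c : G) ∈ W ∧ χ (cn Γ g c) ∉ B := by
    by_contra hcon
    push Not at hcon
    let Q : Subgroup G :=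
      { carrier := {x | ∃ hx : x ∈ Γ, ∀ g : G, χ (cn Γ g ⟨x, hx⟩) ∈ B}
        mul_mem' := by
          rintro a b ⟨ha, ha'⟩ ⟨hb, hb'⟩
          refine ⟨mul_mem ha hb, fun g => ?_⟩
          have : (⟨a * b, mul_mem ha hb⟩ : Γ) = ⟨a, ha⟩ * ⟨b, hb⟩ := rfl
          rw [this, map_mul, map_mul]
          exact mul_mem (ha' g) (hb' g)
        one_mem' := by
          refine ⟨one_mem _, fun g => ?_⟩
          have : (⟨1, one_mem _⟩ : Γ) = 1 := rfl
          rw [this, map_one, map_one]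
          exact one_mem _
        inv_mem' := by
          rintro a ⟨ha, ha'⟩
          refine ⟨inv_mem ha, fun g => ?_⟩
          have : (⟨a⁻¹, inv_mem ha⟩ : Γ) = (⟨a, ha⟩ : Γ)⁻¹ := rfl
          rw [this, map_inv, map_inv]
          exact inv_mem (ha' g) }
    have hQn : Q.Normal := by
      refine ⟨?_⟩
      rintro a ⟨ha, ha'⟩ h
      refine ⟨Normal.conj_mem inferInstance a ha h, fun g => ?_⟩
      have e : (⟨h * a * h⁻¹, Normal.conj_mem inferInstance a ha h⟩ : Γ) =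
          cn Γ h ⟨a, ha⟩ := rfl
      rw [e, cn_cn]
      exact ha' (g * h)
    have hle' : Γ ≤ Q := by
      refine hle.trans (normalClosure_le_normal ?_)
      intro x hx
      exact ⟨hDD hx, fun g => hcon g ⟨x, hDD hx⟩ hx⟩
    obtain ⟨hm, hm'⟩ := hle' m0.2
    apply hm0
    have := hm' 1
    rw [cn_one] at this
    exact this
  obtain ⟨g, c, hc, hvc⟩ := hex
  let χ' : Γ →* Fˣ := χ.comp (cn Γ g)
  let f' : Γ → F := fun x => f (cn Γ g x)
  have hf1' : ∀ x ∈ commutator Γ, ∀ y ∈ commutator Γ,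
      f' (x * y) = f' x + f' y := by
    intro x hx y hy
    show f (cn Γ g (x * y)) = _
    rw [map_mul, hf1 _ (cn_comm_mem Γ g hx) _ (cn_comm_mem Γ g hy)]
  have hf2' : ∀ m, ∀ x ∈ commutator Γ, f' (m * x * m⁻¹) = (χ' m : F) * f' x := by
    intro m x hx
    show f (cn Γ g (m * x * m⁻¹)) = _
    rw [map_mul, map_mul, map_inv, hf2 _ _ (cn_comm_mem Γ g hx)]
    rfl
  have hcm : ∀ m, c * m * c⁻¹ * m⁻¹ ∈ commutator Γ := fun m =>
    commutator_mem_commutator (mem_top c) (mem_top m)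
  have hcr : Crossed χ' (fun m => f' (c * m * c⁻¹ * m⁻¹)) := by
    intro m m'
    have e : c * (m * m') * c⁻¹ * (m * m')⁻¹ =
        (c * m * c⁻¹ * m⁻¹) * (m * (c * m' * c⁻¹ * m'⁻¹) * m⁻¹) := by group
    show f' (c * (m * m') * c⁻¹ * (m * m')⁻¹) = _
    rw [e, hf1' _ (hcm m) _ (Normal.conj_mem inferInstance _ (hcm m') m), hf2' _ _ (hcm m')]
  refine ⟨g, _, hcr, c, hc, ?_, hvc, ?_⟩
  · show f' (c * c * c⁻¹ * c⁻¹) = 0
    have e : c * c * c⁻¹ * c⁻¹ = 1 := by group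
    rw [e]
    show f (cn Γ g 1) = 0
    rw [map_one]
    exact f_one hf1
  · refine ⟨cn Γ g⁻¹ x0, ?_⟩
    have h1 : cn Γ g⁻¹ x0 ∈ commutator Γ := cn_comm_mem Γ _ hx0
    have h2 : f' (cn Γ g⁻¹ x0) = f x0 := by
      show f (cn Γ g (cn Γ g⁻¹ x0)) = _
      rw [cn_cn, mul_inv_cancel, cn_one]
    show f' (c * cn Γ g⁻¹ x0 * c⁻¹ * (cn Γ g⁻¹ x0)⁻¹) ≠ 0
    rw [hf1' _ (Normal.conj_mem inferInstance _ h1 c) _ (inv_mem h1), hf2' _ _ h1]
    have h3 : f' ((cn Γ g⁻¹ x0)⁻¹) = - f' (cn Γ g⁻¹ x0) := by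
      have h4 := hf1' _ h1 _ (inv_mem h1)
      rw [mul_inv_cancel] at h4
      have h5 : f' 1 = 0 := by
        show f (cn Γ g 1) = 0
        rw [map_one]
        exact f_one hf1
      rw [h5] at h4
      exact (eq_neg_of_add_eq_zero_right h4.symm)
    rw [h3, h2]
    have h6 : (χ' c : F) * f x0 + -f x0 = ((χ' c : F) - 1) * f x0 := by ring
    rw [h6]
    refine mul_ne_zero (sub_ne_zero.2 ?_) hfx0
    intro h7
    apply hvc
    have h8 : χ (cn Γ g c) = 1 := Units.ext h7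
    rw [h8]
    exact one_mem _

theorem rdn (hT : S_THN.{u}) (hM : S_GAM.{u}) (hAlg : S_ALG.{u}) : S_RDN.{u} := by
  intro G _ T hfin h1T hinv hgen k hk hFG habel hnfg
  obtain ⟨hDD, hle⟩ := hM G T hinv hgen k hk
  have : Group.FG (gam G k) := (Group.fg_iff_subgroup_fg _).2 hFG
  obtain ⟨F, iF, Γ₀, iΓ, v, χ, f, hf1, hf2, hne, m0, hm0⟩ := hAlg (gam G k) habel hnfg
  let B : Subgroup Fˣ :=
    { carrier := {u | v (u : F) = 1}
      mul_mem' := fun {a b} ha hb => by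
        show v ((a * b : Fˣ) : F) = 1
        rw [Units.val_mul, map_mul, show v (a : F) = 1 from ha, show v (b : F) = 1 from hb, one_mul]
      one_mem' := by
        show v ((1 : Fˣ) : F) = 1
        rw [Units.val_one, map_one]
      inv_mem' := fun {a} ha => by
        show v ((a⁻¹ : Fˣ) : F) = 1
        rw [Units.val_inv_eq_inv_val, map_inv₀, show v (a : F) = 1 from ha, inv_one] }
  obtain ⟨g, b, hb, c, hc, hbc, hvc, hne'⟩ := cross_of_alg (DD T k) (gam G k) hDD hle F χ f B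
    hf1 hf2 hne ⟨m0, hm0⟩
  exact hT G T hfin h1T hinv hgen k hk F Γ₀ v (χ.comp (cn _ g)) b hb c hc hbc hvc hne'

end Pool.Agent.Helper43.NG
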