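import Pool.Agent.Helper43.NG.GEO
import Pool.Agent.Helper43.NG.RDN
import Pool.Agent.Helper3.NG.PTB
import Pool.Agent.Helper3.NG.REC
import Pool.Agent.Helper30.NG.TRA
import Pool.Agent.Helper38.NG.TRB
import Pool.Agent.Helper38.NG.ROT
import Pool.Agent.Helper38.NG.NFM
import Pool.Agent.Helper38.NG.PTA
import Pool.Agent.Helper49.NG.GAM
import Pool.Agent.Helper49.NG.LET
import Pool.Agent.Helper54.NG.CRN
import Pool.Agent.Helper54.NG.MNN
import Pool.Agent.Helper54.NG.FNN

/-!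
# Assembly of project NG (helper43), page MP_d69e80_al
-/

set_option autoImplicit false

namespace Pool.Agent.Helper43.NG

open Pool.Agent.N600.G3 (S_ALG S_CNT)
open Pool.Agent

universe u

theorem tra' : S_TRA.{u} := Helper30.NG.tra Helper49.NG.letp

theorem trb' : S_TRB.{u} := Helper38.NG.trb tra'

theorem geo' : S_GEO.{u} :=
  geo Helper49.NG.letp Helper38.NG.pta
    (lvl Helper49.NG.letp Helper38.NG.pta (Helper3.NG.ptb Helper38.NG.pta)
      (Helper3.NG.rec' Helper38.NG.pta (Helper3.NG.ptb Helper38.NG.pta)) tra' trb'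
      (Helper38.NG.rot trb'))
    (Helper38.NG.nfm Helper49.NG.letp tra' trb')

theorem cnt' : S_CNT.{u} :=
  N558.G3.t_cnt (N488.G3.t_entf N787.G3.t_ent2 (N99.G3.t_ent3 N711.G3.t_ent1))
    N405.G3.t_fib N713.G3.t_sec N693.G3.t_prd N693.G3.t_tri N499.G3.t_eps

theorem thn' : S_THN.{u} :=
  thn geo' Helper49.NG.letp Helper38.NG.pta Helper38.NG.ptc Helper49.NG.gam cnt'

theorem fnn' : S_FNN.{u} :=
  Helper54.NG.fnn (Helper54.NG.mnn (Helper54.NG.crn (rdn thn' Helper49.NG.gam N600.G3.alg)))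

end Pool.Agent.Helper43.NG
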