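import Pool.Agent.Helper43.NG.THM

/-!
# Parts RHM, MEM, FIM of project NG (helper43), page MP_d69e80_al
-/

set_option autoImplicit false

namespace Pool.Agent.Helper43.NG

open scoped Pointwise commutatorElement
open Subgroup Filter Topology Polynomial
open Pool.Agent
open Pool.Agent.N600.G3 (one_le_card inv_mem_pow)
open Pool.Agent.W963.GE (MM MM_ge UnitNotRoot mm_dob base log_base_ge eta_ge)
open Pool.Agent.TH53.UG (act act_of)
open Pool.Agent.Y552.CP (vn_of_surj vn_quot_mono)

universe u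

theorem rhm : S_RHM.{u} := by
  intro G _ T hT h1 C K p hK hC h
  have hlim : Tendsto (fun R : ℕ => C * K * (R + 1)) atTop atTop := by
    apply tendsto_atTop_mono (f := fun R => R) _ tendsto_id
    intro R
    have : 0 < C * K := Nat.mul_pos hC hK
    nlinarith
  have h2 := (H746UG.tendsto_rho T).comp hlim
  refine ge_of_tendsto' h2 ?_
  intro R
  have h3 := h (R + 1)
  show p / (2 * C) ≤ Real.log (Nat.card ↥(T ^ (C * K * (R + 1)))) / ((C * K * (R + 1) : ℕ) : ℝ)
  have hK' : (0 : ℝ) < K := by exact_mod_cast hK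
  have hC' : (0 : ℝ) < C := by exact_mod_cast hC
  have hpos : (0 : ℝ) < ((C * K * (R + 1) : ℕ) : ℝ) := by
    push_cast
    positivity
  rw [le_div_iff₀ hpos]
  refine le_trans (le_of_eq ?_) h3
  push_cast
  field_simp

lemma two_pow_le_Ck (k : ℕ) : 8 * 2 ^ (k + 1) ≤ 32 * Ck k := by
  unfold Ck
  have h : 2 ^ (k + 1) = 2 * 2 ^ k := by rw [pow_succ]; ring
  have h1 : 0 < 2 ^ k := by positivity
  rw [h]
  nlinarith

theorem mem' : S_MEM.{u} := by
  intro G _ T hfin hgen k hk
  have hCk : 0 < Ck k := by unfold Ck; positivity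
  have hCk' : (0 : ℝ) < Ck k := by exact_mod_cast hCk
  have hle := two_pow_le_Ck k
  have hle' : (8 : ℝ) * 2 ^ (k + 1) ≤ 32 * Ck k := by exact_mod_cast hle
  have h2pos : (0 : ℝ) < 2 ^ (k + 1) := by positivity
  have hl2 : 0 < Real.log 2 := Real.log_pos (by norm_num)
  have key : ∀ {a ρ : ℝ}, 0 ≤ a → a / 2 ^ (k + 1) ≤ ρ → a / (4 * Ck k) ≤ ρ := by
    intro a ρ ha h
    refine le_trans ?_ h
    apply div_le_div_of_nonneg_left ha h2pos
    linarith
  rcases Pool.Agent.TH53.UG.main_track hfin hgen (k := k) hk with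
    h | ⟨hMf, t, b, x, hx0, hx, hp, hn⟩ | ⟨h, _⟩
  · left
    have h1 := Pool.Agent.TH53.UG.rho_of_two T (L := 2 ^ (k + 1)) (by positivity) h
    push_cast at h1
    exact key hl2.le h1
  · have hxi : IsIntegral ℤ x := Pool.Agent.TH53.UG.integral_of_root _ b hp
    have h1 := Pool.Agent.TH53.UG.rho_of_dig T (L := 2 ^ (k + 1)) (by positivity) hx0 hn
    push_cast at h1
    by_cases hu : IsIntegral ℤ x⁻¹
    · right; right
      have hE : ∀ p : ℤ[X], aeval (act (gam G k) t) p = 0 → aeval x p = 0 := by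
        intro p h0
        apply hp p
        have h0' : aeval (act (Pool.Agent.H785R3.GrowthA.gam G k) t) p = 0 := h0
        rw [h0']
        rfl
      have hMf' : Module.Finite ℤ (Additive (Abelianization (gam G k))) := hMf
      refine ⟨x, t, ⟨hx0, hxi, hu, hx⟩, hE, fun r hr => N433.L3.t_deg _ _ x hE r hr, ?_⟩
      have h2 := log_base_ge (MM_ge x hxi)
      have h3 := eta_ge x hx0 hxi
      have h5 : 0 ≤ min 1 (Real.log (MM x)) := le_min zero_le_one (Real.log_nonneg (MM_ge x hxi))
      have h6 : min 1 (Real.log (MM x)) / 8 ≤ H746UG.eta x := by linarith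
      calc min 1 (Real.log (MM x)) / (32 * Ck k)
          ≤ min 1 (Real.log (MM x)) / (8 * 2 ^ (k + 1)) := by
            apply div_le_div_of_nonneg_left h5 (by positivity) hle'
        _ = min 1 (Real.log (MM x)) / 8 / 2 ^ (k + 1) := by rw [div_div]
        _ ≤ H746UG.eta x / 2 ^ (k + 1) := by gcongr
        _ ≤ _ := h1
    · left
      rw [H746UG.eta_eq_log_two x hx0 (fun h => hu h.2)] at h1
      exact key hl2.le h1
  · right; left
    exact h

/-- the case of a group with a symmetric generating set -/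
theorem bothN (hC : S_COM.{u}) (hM : S_MEM.{u}) {G : Type u} [Group G] (T : Set G)
    (hfin : T.Finite) (h1T : 1 ∈ T) (hinv : T⁻¹ = T) (hgen : closure T = ⊤) (k : ℕ) (hk : 1 ≤ k) :
    Exc G k ∨
      Real.log 2 / (4 * Ck k) ≤ H746UG.rho T ∨
      ∃ (x : ℂ) (t : G), UnitNotRoot x ∧
        ((∀ p : ℤ[X], aeval (act (gam G k) t) p = 0 → aeval x p = 0) ∨
          (t ∈ gam G k ∧
            ∀ p : ℤ[X], aeval (act ⁅gam G k, gam G k⁆ t) p = 0 → aeval x p = 0)) ∧
        (∀ r : ℕ, Module.rank ℤ (Additive (Abelianization (gam G k))) ≤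
            (r : Cardinal.{u}) →
          Module.rank ℤ (Additive (Abelianization (⁅gam G k, gam G k⁆ : Subgroup G))) ≤
            (r : Cardinal.{u}) → (minpoly ℤ x).natDegree ≤ r) ∧
        min 1 (Real.log (MM x)) / (32 * Ck k) ≤ H746UG.rho T := by
  have hCk : 0 < Ck k := by unfold Ck; positivity
  rcases hM G T hfin hgen k hk with h | h | ⟨x, t, h1, h2, h3, h4⟩
  · exact Or.inr (Or.inl h)
  · rcases hC G T hfin h1T hinv hgen k hk with h5 | h5 | ⟨x, t, h1, ht, h2, h3, h4⟩
    · right; left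
      have h6 := Pool.Agent.TH53.UG.rho_of_two T (L := 4 * Ck k) (by omega) h5
      push_cast at h6
      exact h6
    · exact Or.inl ⟨h, h5⟩
    · exact Or.inr (Or.inr ⟨x, t, h1, Or.inr ⟨ht, h2⟩, fun r _ hr => h3 r hr, h4⟩)
  · exact Or.inr (Or.inr ⟨x, t, h1, Or.inl h2, fun r hr _ => h3 r hr, h4⟩)

theorem fim (hC : S_COM.{u}) (hM : S_MEM.{u}) : S_FIM.{u} := by
  obtain ⟨c, hc, hunc⟩ := Y552.CP.unc
  refine ⟨c, hc, ?_⟩
  intro G _ S k H d hfin hsym hgen hk hH hd
  have hCk : 0 < Ck k := by unfold Ck; positivity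
  have hCk' : (0 : ℝ) < Ck k := by exact_mod_cast hCk
  rcases S.eq_empty_or_nonempty with hS | hne
  · left
    have htriv : ∀ x : G, x = 1 := by
      intro x
      have hx : x ∈ closure S := by rw [hgen]; exact mem_top x
      rw [hS, Subgroup.closure_empty, Subgroup.mem_bot] at hx
      exact hx
    have hs : Subsingleton G := ⟨fun a b => by rw [htriv a, htriv b]⟩
    have hsH : Subsingleton H := inferInstance
    have vn : ∀ (X : Type u) [Group X] [Subsingleton X], Group.IsVirtuallyNilpotent X := by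
      intro X _ _
      exact ⟨⊤, (isNilpotent_iff_lowerCentralSeries _).2 ⟨0, Subsingleton.elim _ _⟩, inferInstance⟩
    have h1 : Subsingleton (H ⧸ (⁅gam H k, gam H k⁆ : Subgroup H)) := inferInstance
    have h2 : Subsingleton (gam H k) := inferInstance
    have h3 : Subsingleton (gam H k ⧸ derivedSeries (gam H k) 2) := inferInstance
    exact ⟨vn _, vn _, fun _ => vn _⟩
  have hd1 : 1 ≤ d := by omega
  set T := W963.GE.TT S H d with hT
  have hTfin : T.Finite := W963.GE.TT_finite S hfin H d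
  have hTgen : closure T = ⊤ := W963.GE.TT_gen S hgen H hH hd
  have h1T : (1 : H) ∈ T := by
    show ((1 : H) : G) ∈ (insert 1 S) ^ (2 * d - 1)
    have : (1 : G) ∈ insert 1 S := Set.mem_insert _ _
    simpa using Set.pow_mem_pow (n := 2 * d - 1) this
  have hinv1 : (insert 1 S)⁻¹ = insert 1 S := by
    rw [Set.inv_insert, inv_one, hsym]
  have hTinv : T⁻¹ = T := by
    ext x
    rw [Set.mem_inv]
    constructor
    · intro hx
      have := N600.G3.inv_mem_pow hinv1 (show ((x⁻¹ : H) : G) ∈ (insert 1 S) ^ (2 * d - 1) from hx)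
      rw [← coe_inv, inv_inv] at this
      exact this
    · intro hx
      exact N600.G3.inv_mem_pow hinv1 (show (x : G) ∈ (insert 1 S) ^ (2 * d - 1) from hx)
  rcases bothN hC hM T hTfin h1T hTinv hTgen k hk with h | h
  · exact Or.inl h
  right
  have h4 := W963.GE.rho_TT S hfin hne H hd1
  have he : ((2 * d - 1 : ℕ) : ℝ) = 2 * d - 1 := by
    rw [Nat.cast_sub (by omega)]; push_cast; ring
  rw [he] at h4
  have hpos : (0 : ℝ) < 2 * d - 1 := by
    have : (1 : ℝ) ≤ d := by exact_mod_cast hd1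
    linarith
  have key : ∀ {a b : ℝ}, a / b ≤ H746UG.rho T → a / (b * (2 * d - 1)) ≤ H746UG.rho S := by
    intro a b h
    rw [← div_div, div_le_iff₀ hpos, mul_comm (H746UG.rho S)]
    exact h.trans h4
  constructor
  · rcases h with h | ⟨x, t, h1, h2, _, h3⟩
    · exact Or.inl (key h)
    · exact Or.inr ⟨x, t, h1, h2, key h3⟩
  · intro m hm1 hm2
    have hρ0 : 0 ≤ H746UG.rho S := by
      refine ge_of_tendsto' (H746UG.tendsto_rho S) fun n => ?_
      positivity
    rcases Nat.eq_zero_or_pos m with h0 | h0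
    · subst h0
      simp only [Nat.cast_zero, mul_zero, Real.log_zero]
      norm_num
      exact hρ0
    have h5 := hunc m 1 d (Ck k * H746UG.rho S) h0 le_rfl hd1 (by
      have e1 : (2 * ((1 : ℕ) : ℝ) - 1) = 1 := by norm_num
      rw [e1, one_mul]
      rcases h with h | ⟨x, t, h1, _, h2, h3⟩
      · left
        have h6 := key h
        have e2 : Real.log 2 / (4 * (2 * (d : ℝ) - 1)) =
            Ck k * (Real.log 2 / (4 * Ck k * (2 * d - 1))) := by
          field_simp
        rw [e2]
        gcongr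
      · right
        refine ⟨x, h1.1, h1.2.1, h1.2.2.2, h2 m hm1 hm2, ?_⟩
        have h6 := key h3
        have e2 : min 1 (Real.log (MM x)) / (32 * (2 * (d : ℝ) - 1)) =
            Ck k * (min 1 (Real.log (MM x)) / (32 * Ck k * (2 * d - 1))) := by
          field_simp
        rw [e2]
        gcongr)
    have e3 : c / (Ck k * d * Real.log (2 * m) ^ 3) =
        (c / (((1 : ℕ) : ℝ) * d * Real.log (2 * m) ^ 3)) / Ck k := by
      rw [Nat.cast_one, one_mul, div_div, mul_comm _ (Ck k : ℝ), mul_assoc]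
    rw [e3, div_le_iff₀ hCk', mul_comm (H746UG.rho S)]
    exact h5

end Pool.Agent.Helper43.NG
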