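import Pool.Agent.Helper43.NG.Asm
import Pool.Agent.Helper43.NG.FIM
import Pool.Agent.Helper54.NG.COM

/-!
# Assembly of project NG (helper43), page MP_d69e80_al: Mahler measures
-/

set_option autoImplicit false

namespace Pool.Agent.Helper43.NG

open Pool.Agent
open Pool.Agent.N600.L3 (S_CNT2)

universe u

theorem cnt2' : S_CNT2.{u} :=
  N622.L3.t_cnt2 N787.G3.t_ent2 (N99.G3.t_ent3 N711.G3.t_ent1)
      (N572.L3.t_lin (N711.L3.t_noif (N49.L3.t_noi N123.L3.t_ri) N426.L3.t_lat) N216.L3.t_col)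
      N693.G3.t_prd N79.L3.t_tri2 N31.L3.t_eps2

theorem thm' : S_THM.{u} :=
  thm geo' Helper49.NG.letp Helper38.NG.pta Helper38.NG.ptc Helper49.NG.gam cnt2'

theorem eim' : S_EIM.{u} :=
  eim N80.L3.t_alg2 N401.L3.t_intg rhm N527.L3.t_phi
    (rdm N401.L3.t_intg N136.L3.t_mah thm' Helper49.NG.gam)

theorem fim' : S_FIM.{u} :=
  fim (Helper54.NG.com (rdn thn' Helper49.NG.gam N600.G3.alg) eim') mem'

end Pool.Agent.Helper43.NG
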