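import Pool.Agent.Helper43.NG.LVL

/-!
# Part GEO of project NG (helper43), page MP_d69e80_al
-/

set_option autoImplicit false

namespace Pool.Agent.Helper43.NG

open scoped Pointwise commutatorElement
open Subgroup

universe u

theorem geo (hL : S_LET.{u}) (hA : S_PTA.{u}) (hV : S_LVL.{u}) (hN : S_NFM.{u}) :
    S_GEO.{u} := by
  intro G _ T h1 hT hcl k hk Z ⟨x0, hx0⟩ c hc hcZ
  classical
  obtain ⟨l1, l2, l3, l4, -⟩ := hL G T h1 hT
  by_cases hG1 : Good T k Z 1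
  · refine ⟨[(1, 1)], by simp, ?_, by simp, ?_, ?_, ?_⟩
    · intro p hp
      rw [List.mem_singleton] at hp
      subst hp
      simpa using hG1
    · intro p hp q hq
      rw [List.mem_singleton] at hp hq
      subst hp
      subst hq
      simpa using hcZ
    · exact ⟨0, 0, by simp, by show (1 : G)⁻¹ * 1 ∈ T ^ 0; simp, Nat.zero_le _⟩
    · exact ⟨0, 0, by simp, by show (1 : G)⁻¹ * 1 ∈ T ^ 0; simp, Nat.zero_le _⟩
  let Q : ℕ → Prop := fun m => ∃ x ∈ HH T k m, Good T k Z x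
  have hQ1 : Q 1 := by
    refine ⟨x0, ?_, hx0⟩
    have : (⊤ : Subgroup G) ≤ HH T k 1 := by
      rw [← hcl]
      refine Subgroup.closure_mono ?_
      intro t ht
      exact ⟨1, le_rfl, hk, Let.base ht⟩
    exact this (Subgroup.mem_top _)
  set m := Nat.findGreatest Q k with hmdef
  have hm : 1 ≤ m := Nat.le_findGreatest hk hQ1
  have hmk : m ≤ k := Nat.findGreatest_le k
  have hQm : Q m := Nat.findGreatest_spec hk hQ1
  have hQm1 : ∀ x ∈ HH T k (m + 1), ¬ Good T k Z x := by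
    intro x hx hxg
    rcases Nat.lt_or_ge m k with hlt | hge
    · exact Nat.findGreatest_is_greatest (P := Q) (n := k) (k := m + 1)
        (Nat.lt_succ_self m) hlt ⟨x, hx, hxg⟩
    · rw [HH_bot T (by omega : k < m + 1), Subgroup.mem_bot] at hx
      rw [hx] at hxg
      exact hG1 hxg
  have hex : ∃ n : ℕ, ∃ h ∈ HH T k (m + 1), ∃ y ∈ (LL T m) ^ n, Good T k Z (h * y) := by
    by_contra hcon
    push Not at hcon
    obtain ⟨x, hx, hxg⟩ := hQm
    exact hN G T h1 hT k m hm hmk Z (fun n h hh y hy => hcon n h hh y hy) x hx hxg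
  set K := Nat.find hex with hKdef
  have hspec := Nat.find_spec hex
  have hmin : ∀ n < K, ∀ h ∈ HH T k (m + 1), ∀ y ∈ (LL T m) ^ n, ¬ Good T k Z (h * y) := by
    intro n hn h hh y hy hg
    exact Nat.find_min hex hn ⟨h, hh, y, hy, hg⟩
  have hK : 0 < K := by
    rcases Nat.eq_zero_or_pos K with h0 | h0
    · exfalso
      obtain ⟨h, hh, y, hy, hg⟩ := hspec
      rw [← hKdef, h0, pow_zero, Set.mem_one] at hy
      rw [hy, mul_one] at hg
      exact hQm1 h hh hg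
    · exact h0
  obtain ⟨P, p1, p2, p3, p4, p5, p6⟩ := hV G T h1 hT k m K hm hmk hK Z hmin hspec
  have h1E : (1 : G) ∈ EE T k m := ⟨m, le_rfl, hmk, l3 m hm⟩
  have hE : EE T k m ⊆ T ^ (3 * 2 ^ (k - 1)) := by
    rintro x ⟨l, _, hlk, hx⟩
    exact l4 k l x hlk hx
  obtain ⟨-, -, -, -, a5⟩ := hA G (EE T k m) h1E
  obtain ⟨b1, -, -, -, -⟩ := hA G T h1
  have hle : 3 * 2 ^ (k - 1) * (4 * (k + 1 - m) * P.length) ≤ 6 * k * 2 ^ k * P.length := by
    obtain ⟨j, rfl⟩ : ∃ j, k = j + 1 := ⟨k - 1, by omega⟩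
    have h3 : j + 1 + 1 - m ≤ j + 1 := by omega
    calc 3 * 2 ^ (j + 1 - 1) * (4 * (j + 1 + 1 - m) * P.length)
        ≤ 3 * 2 ^ (j + 1 - 1) * (4 * (j + 1) * P.length) := by gcongr
      _ = 6 * (j + 1) * 2 ^ (j + 1) * P.length := by
          rw [Nat.add_sub_cancel, pow_succ]; ring
  refine ⟨P, p1, p2, p3, ?_, b1 _ _ _ _ _ (a5 T _ hE _ _ _ _ p5) hle,
    b1 _ _ _ _ _ (a5 T _ hE _ _ _ _ p6) hle⟩
  intro p hp q hq
  by_contra hcon
  exact p4 p hp q hq ⟨c, hc, hcon⟩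

end Pool.Agent.Helper43.NG
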