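import Pool.Agent.Helper43.NG.Spec

/-!
# Part LVL of project NG (helper43), page MP_d69e80_al
-/

set_option autoImplicit false

namespace Pool.Agent.Helper43.NG

open scoped Pointwise commutatorElement
open Subgroup

universe u

section words

variable {G : Type u} [Group G]

lemma hw_congr {s s' : ℕ → G} {n : ℕ} (h : ∀ i < n, s i = s' i) : hw s n = hw s' n := by
  induction n with
  | zero => rfl
  | succ n ih =>
    show hw s n * s n = hw s' n * s' n
    rw [ih (fun i hi => h i (by omega)), h n (by omega)]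

lemma exists_letters (T : Set G) (h1 : (1 : G) ∈ T) (n : ℕ) (w : G) (hw' : w ∈ T ^ n) :
    ∃ s : ℕ → G, (∀ i, s i ∈ T) ∧ hw s n = w := by
  induction n generalizing w with
  | zero =>
    refine ⟨fun _ => 1, fun _ => h1, ?_⟩
    rw [pow_zero, Set.mem_one] at hw'
    rw [hw']; rfl
  | succ n ih =>
    rw [pow_succ] at hw'
    obtain ⟨w', hw2, t, ht, rfl⟩ := Set.mem_mul.1 hw'
    obtain ⟨s, hs, hsw⟩ := ih w' hw2
    refine ⟨fun i => if i < n then s i else t, fun i => ?_, ?_⟩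
    · dsimp only
      split_ifs
      · exact hs i
      · exact ht
    · show hw (fun i => if i < n then s i else t) n * (if n < n then s n else t) = w' * t
      rw [if_neg (lt_irrefl n), hw_congr (s' := s), hsw]
      intro i hi
      rw [if_pos hi]

lemma hw_seg {T : Set G} {s : ℕ → G} (hs : ∀ i, s i ∈ T) (i n : ℕ) :
    (hw s i)⁻¹ * hw s (i + n) ∈ T ^ n := by
  induction n with
  | zero => simp
  | succ n ih =>
    have : (hw s i)⁻¹ * hw s (i + (n + 1)) = ((hw s i)⁻¹ * hw s (i + n)) * s (i + n) := by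
      show (hw s i)⁻¹ * (hw s (i + n) * s (i + n)) = _
      rw [mul_assoc]
    rw [this, pow_succ]
    exact Set.mul_mem_mul ih (hs _)

lemma inv_mem_pow {T : Set G} (hT : T⁻¹ = T) {n : ℕ} {w : G} (hw' : w ∈ T ^ n) :
    w⁻¹ ∈ T ^ n := by
  have : (T ^ n)⁻¹ = T ^ n := by rw [← inv_pow, hT]
  rw [← this]
  exact Set.inv_mem_inv.2 hw'

lemma hw_mem {T : Set G} {s : ℕ → G} (hs : ∀ i, s i ∈ T) (n : ℕ) : hw s n ∈ T ^ n := by
  have h := hw_seg hs 0 n
  rw [zero_add] at h
  simpa [hw] using h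

lemma hw_period {s : ℕ → G} {D : ℕ} (hs : ∀ i, s (D + i) = s i) (k : ℕ) :
    hw s (D + k) = hw s D * hw s k := by
  induction k with
  | zero => simp [hw]
  | succ k ih =>
    show hw s (D + k) * s (D + k) = hw s D * (hw s k * s k)
    rw [ih, hs, mul_assoc]

lemma HH_bot (T : Set G) {k m : ℕ} (h : k < m) : HH T k m = ⊥ := by
  have : EE T k m = ∅ := by
    ext x
    simp only [Set.mem_empty_iff_false, iff_false]
    rintro ⟨l, h1, h2, _⟩
    omega
  rw [HH, this, Subgroup.closure_empty]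

lemma HH_anti (T : Set G) (k : ℕ) {m m' : ℕ} (h : m ≤ m') : HH T k m' ≤ HH T k m := by
  refine Subgroup.closure_mono ?_
  rintro x ⟨l, h1, h2, h3⟩
  exact ⟨l, h.trans h1, h2, h3⟩

lemma Good_smul {T : Set G} {k : ℕ} {Z : Subgroup G} {s g : G} (hs : s ∈ Z)
    (h : Good T k Z g) : Good T k Z (s * g) := by
  obtain ⟨d, hd, hg⟩ := h
  refine ⟨d, hd, fun h => hg ?_⟩
  have e : g * d * g⁻¹ = s⁻¹ * ((s * g) * d * (s * g)⁻¹) * s := by group
  rw [e]
  exact Z.mul_mem (Z.mul_mem (Z.inv_mem hs) h) hs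

lemma Good_of_smul {T : Set G} {k : ℕ} {Z : Subgroup G} {s g : G} (hs : s ∈ Z)
    (h : Good T k Z (s * g)) : Good T k Z g := by
  have := Good_smul (Z.inv_mem hs) h
  rwa [inv_mul_cancel_left] at this

end words

/-- from the data of one level with base points to the list of all pairs -/
lemma assemble {G : Type u} [Group G] (E : Set G) (h1E : 1 ∈ E) (hEi : E⁻¹ = E)
    (hA : S_PTA.{u}) (hB : S_PTB.{u})
    (C δ : ℕ) (hδ : 1 ≤ δ) (η κ : ℕ → G) (Pf : ℕ → List (G × G))
    (hη0 : η 0 ∈ E ^ 0) (hκ0 : κ 0 ∈ E ^ δ)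
    (hη : ∀ i, i + 1 < δ → (η i)⁻¹ * η (i + 1) ∈ E)
    (hκ : ∀ i, i + 1 < δ → (κ i)⁻¹ * κ (i + 1) ∈ E)
    (hη1 : η (δ - 1) ∈ E ^ (δ - 1)) (hκ1 : κ (δ - 1) ∈ E ^ (2 * δ - 1))
    (hne : ∀ i < δ, Pf i ≠ [])
    (hP1 : ∀ i < δ, Path E 1 ((Pf i).map Prod.fst) 1 (C * (Pf i).length))
    (hP2 : ∀ i < δ, Path E 1 ((Pf i).map Prod.snd) 1 (C * (Pf i).length)) :
    Path E 1 (((List.range δ).flatMap fun i => (Pf i).map fun p => (η i * p.1, κ i * p.2)).map
        Prod.fst) 1
        ((C + 4) * ((List.range δ).flatMap fun i => (Pf i).map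
          fun p => (η i * p.1, κ i * p.2)).length) ∧
    Path E 1 (((List.range δ).flatMap fun i => (Pf i).map fun p => (η i * p.1, κ i * p.2)).map
        Prod.snd) 1
        ((C + 4) * ((List.range δ).flatMap fun i => (Pf i).map
          fun p => (η i * p.1, κ i * p.2)).length) := by
  obtain ⟨a1, a2, a3, a4, -⟩ := hA G E h1E
  set P := (List.range δ).flatMap fun i => (Pf i).map fun p => (η i * p.1, κ i * p.2) with hP
  have e1 : P.map Prod.fst = (List.range δ).flatMap fun i => ((Pf i).map Prod.fst).map (η i * ·) := by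
    rw [hP, List.map_flatMap]
    congr 1
    funext i
    rw [List.map_map, List.map_map]
    rfl
  have e2 : P.map Prod.snd = (List.range δ).flatMap fun i => ((Pf i).map Prod.snd).map (κ i * ·) := by
    rw [hP, List.map_flatMap]
    congr 1
    funext i
    rw [List.map_map, List.map_map]
    rfl
  have hlen : δ ≤ P.length := by
    rw [hP, List.length_flatMap]
    have h3 : ((List.range δ).map fun _ => 1).sum ≤
        ((List.range δ).map fun i => ((Pf i).map fun p => (η i * p.1, κ i * p.2)).length).sum := by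
      apply List.sum_le_sum
      intro i hi
      rw [List.length_map]
      exact List.length_pos_iff.2 (hne i (List.mem_range.1 hi))
    simpa using h3
  have b1 := hB G E h1E C δ η (fun i => (Pf i).map Prod.fst) hδ hη
    (fun i hi => by rw [List.length_map]; exact hP1 i hi)
  have b2 := hB G E h1E C δ κ (fun i => (Pf i).map Prod.snd) hδ hκ
    (fun i hi => by rw [List.length_map]; exact hP2 i hi)
  rw [← e1, List.length_map] at b1
  rw [← e2, List.length_map] at b2
  -- paths without intermediate points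
  have nil1 : ∀ a b : G, ∀ n, a⁻¹ * b ∈ E ^ n → Path E a [] b n := fun a b n h => h
  constructor
  · have c1 : Path E 1 [] (η 0) 0 := nil1 _ _ _ (by simpa using hη0)
    have c2 : Path E (η (δ - 1)) [] 1 (δ - 1) := nil1 _ _ _ (by
      have := inv_mem_pow hEi hη1
      simpa using this)
    have c3 := a2 _ _ _ _ _ _ _ (a2 _ _ _ _ _ _ _ c1 b1) c2
    rw [List.nil_append, List.append_nil] at c3
    refine a1 _ _ _ _ _ c3 ?_
    have : 4 * δ ≤ 4 * P.length := by omega
    rw [add_mul]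
    omega
  · have c1 : Path E 1 [] (κ 0) δ := nil1 _ _ _ (by simpa using hκ0)
    have c2 : Path E (κ (δ - 1)) [] 1 (2 * δ - 1) := nil1 _ _ _ (by
      have := inv_mem_pow hEi hκ1
      simpa using this)
    have c3 := a2 _ _ _ _ _ _ _ (a2 _ _ _ _ _ _ _ c1 b2) c2
    rw [List.nil_append, List.append_nil] at c3
    refine a1 _ _ _ _ _ c3 ?_
    have : 4 * δ ≤ 4 * P.length := by omega
    rw [add_mul]
    omega

theorem lvl (hL : S_LET.{u}) (hA : S_PTA.{u}) (hB : S_PTB.{u}) (hR : S_REC.{u})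
    (hTA : S_TRA.{u}) (hTB : S_TRB.{u}) (hRot : S_ROT.{u}) : S_LVL.{u} := by
  intro G _ T h1 hT k m K hm hmk hK Z hflat ⟨h0, hh0, w0, hw0, hgood⟩
  classical
  obtain ⟨l1, l2, l3, -, -⟩ := hL G T h1 hT
  obtain ⟨t1, t2, t3, t4⟩ := hTA G T h1 hT k m K hm hmk hK
  have tb := hTB G T h1 hT k m K hm hmk hK
  have rot := hRot G T h1 hT k m K hm hmk hK
  have hLinv : ∀ l, (LL T l)⁻¹ = LL T l := by
    intro l
    ext x
    rw [Set.mem_inv]
    constructor
    · intro hx
      have := l2 _ _ hx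
      rwa [inv_inv] at this
    · intro hx
      exact l2 _ _ hx
  have hL1 : ∀ l, 1 ≤ l → (1 : G) ∈ LL T l := fun l hl => l3 l hl
  have hEinv : (EE T k m)⁻¹ = EE T k m := by
    ext x
    rw [Set.mem_inv]
    constructor
    · rintro ⟨l, ha, hb, hc⟩
      have := l2 _ _ hc
      rw [inv_inv] at this
      exact ⟨l, ha, hb, this⟩
    · rintro ⟨l, ha, hb, hc⟩
      exact ⟨l, ha, hb, l2 _ _ hc⟩
  have h1E : (1 : G) ∈ EE T k m := ⟨m, le_rfl, hmk, l3 m hm⟩
  have hLE : LL T m ⊆ EE T k m := fun x hx => ⟨m, le_rfl, hmk, hx⟩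
  have hLpow : ∀ n, (LL T m) ^ n ⊆ (EE T k m) ^ n := fun n => Set.pow_subset_pow_left hLE
  have hS0Z : S0 T k m K ≤ Z := by
    rw [S0, Subgroup.closure_le]
    rintro x ⟨h, hh, n, hn, y, hy, d, hd, rfl⟩
    by_contra hcon
    exact hflat n hn h hh y hy ⟨d, hd, hcon⟩
  have hNZ : NN T k m K (k + 1) ≤ Z := by
    rw [NN, HH_bot T (Nat.lt_succ_self k), bot_sup_eq]
    exact hS0Z
  have hHN : ∀ l, HH T k l ≤ NN T k m K l := fun l => le_sup_left
  have hNanti : ∀ l l', l ≤ l' → NN T k m K l' ≤ NN T k m K l := fun l l' h =>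
    sup_le_sup_right (HH_anti T k h) _
  -- conjugation of `H_{m+1}` by short words
  have hconj : ∀ n ≤ K, ∀ y ∈ (LL T m) ^ n, ∀ h ∈ HH T k (m + 1),
      y * h * y⁻¹ ∈ NN T k m K (m + 1) := by
    intro n hn y hy h hh
    rcases Nat.lt_or_ge m k with hmk' | hmk'
    · have h5 := tb n hn y hy (m + 1) (Nat.lt_succ_self m) hmk' h hh
      have h6 := hNanti (m + 1) (m + 1 + 1) (Nat.le_succ _) h5
      have h7 := mul_mem h6 (hHN (m + 1) hh)
      rwa [inv_mul_cancel_right] at h7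
    · have hkm : m = k := le_antisymm hmk hmk'
      rw [HH_bot T (by omega : k < m + 1), Subgroup.mem_bot] at hh
      rw [hh, mul_one, mul_inv_cancel]
      exact one_mem _
  have hflat2 : ∀ n < K, ∀ y ∈ (LL T m) ^ n, ∀ α ∈ HH T k (m + 1), ∀ α' ∈ HH T k (m + 1),
      ¬ Good T k Z (α⁻¹ * y * α') := by
    intro n hn y hy α hα α' hα' hG
    obtain ⟨s, hs, h, hh, he⟩ := (t2 (m + 1) (Nat.lt_succ_self m) _).1
      (hconj n hn.le y hy α' hα')
    have e : α⁻¹ * y * α' = (α⁻¹ * s * α⁻¹⁻¹) * ((α⁻¹ * h) * y) := by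
      have : α⁻¹ * y * α' = α⁻¹ * (y * α' * y⁻¹) * y := by group
      rw [this, he]
      group
    rw [e] at hG
    exact hflat n hn (α⁻¹ * h) (mul_mem (inv_mem hα) hh) y hy
      (Good_of_smul (hS0Z (t1 α⁻¹ (inv_mem hα) s hs)) hG)
  -- the periodic word
  obtain ⟨s0, hs0, hs0w⟩ := exists_letters (LL T m) (hL1 m hm) K w0 hw0
  let s : ℕ → G := fun i => s0 (i % K)
  have hs : ∀ i, s i ∈ LL T m := fun i => hs0 _
  have hper : ∀ i, s (K + i) = s i := by
    intro i
    show s0 ((K + i) % K) = s0 (i % K)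
    rw [Nat.add_mod_left]
  have hsK : hw s K = w0 := by
    rw [← hs0w]
    apply hw_congr
    intro i hi
    show s0 (i % K) = s0 i
    rw [Nat.mod_eq_of_lt hi]
  let x : ℕ → G := fun i => (hw s i)⁻¹ * hw s (K + i)
  have hx : ∀ i, x i ∈ (LL T m) ^ K := by
    intro i
    have := hw_seg hs i K
    rwa [Nat.add_comm i K] at this
  have hGx : ∀ i < K, ∃ n ∈ NN T k m K (m + 1), Good T k Z (n * x i) := by
    intro i hi
    have hu : (hw s i)⁻¹ * hw s K ∈ (LL T m) ^ (K - i) := by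
      have h := hw_seg hs i (K - i)
      have e : i + (K - i) = K := by omega
      rwa [e] at h
    have hr := rot i (K - i) _ _ (hw_mem hs i) hu (by omega)
    refine ⟨_, mul_mem (hHN (m + 1) hh0) hr, ?_⟩
    have e : h0 * (hw s i * ((hw s i)⁻¹ * hw s K) * (hw s i)⁻¹ * ((hw s i)⁻¹ * hw s K)⁻¹) * x i =
        h0 * w0 := by
      show h0 * (hw s i * ((hw s i)⁻¹ * hw s K) * (hw s i)⁻¹ * ((hw s i)⁻¹ * hw s K)⁻¹) *
        ((hw s i)⁻¹ * hw s (K + i)) = h0 * w0
      rw [hw_period hper, ← hsK]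
      group
    rw [e]
    exact hgood
  have hrec := hR G k m (LL T) (NN T k m K) (HH T k) (EE T k m) (Good T k Z) hmk h1E
    (fun l hl hlk => ⟨hL1 l (by omega), hLinv l, fun x hx => ⟨l, hl.le, hlk, hx⟩,
      fun x hx => Subgroup.subset_closure ⟨l, le_rfl, hlk, hx⟩, HH_anti T k (Nat.le_succ l),
      hNanti l (l + 1) (Nat.le_succ l), hHN l⟩)
    (hHN (k + 1)) t3 t4 (fun s hs g hg => Good_smul (hNZ hs) hg) (m + 1) (Nat.lt_succ_self m)
    (by omega)
  have hex : ∀ i, ∃ P : List (G × G), i < K → P ≠ [] ∧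
        (∀ p ∈ P, p.1 ∈ HH T k (m + 1) ∧ p.2 ∈ HH T k (m + 1) ∧
          Good T k Z (p.1⁻¹ * x i * p.2)) ∧
        P.Pairwise (fun p q => ¬ Good T k Z (q.1⁻¹ * x i * p.2)) ∧
        Path (EE T k m) 1 (P.map Prod.fst) 1 (4 * (k + 1 - (m + 1)) * P.length) ∧
        Path (EE T k m) 1 (P.map Prod.snd) 1 (4 * (k + 1 - (m + 1)) * P.length) := by
    intro i
    by_cases hi : i < K
    · obtain ⟨P, hP⟩ := hrec (x i) (fun l' hl' hlk' h hh => tb K le_rfl (x i) (hx i) l' hl' hlk' h hh)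
        (hGx i hi)
      exact ⟨P, fun _ => hP⟩
    · exact ⟨[], fun h => absurd h hi⟩
  choose Pf hPf using hex
  refine ⟨(List.range K).flatMap fun i => (Pf i).map fun p => (hw s i * p.1, hw s (K + i) * p.2),
    ?_, ?_, ?_, ?_, ?_⟩
  · intro hcon
    rw [List.flatMap_eq_nil_iff] at hcon
    have h2 := hcon 0 (List.mem_range.2 hK)
    rw [List.map_eq_nil_iff] at h2
    exact (hPf 0 hK).1 h2
  · intro p hp
    obtain ⟨i, hi, hp⟩ := List.mem_flatMap.1 hp
    obtain ⟨q, hq, rfl⟩ := List.mem_map.1 hp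
    have h3 := ((hPf i (List.mem_range.1 hi)).2.1 q hq).2.2
    have e : (hw s i * q.1)⁻¹ * (hw s (K + i) * q.2) = q.1⁻¹ * x i * q.2 := by
      show (hw s i * q.1)⁻¹ * (hw s (K + i) * q.2) =
        q.1⁻¹ * ((hw s i)⁻¹ * hw s (K + i)) * q.2
      group
    show Good T k Z ((hw s i * q.1)⁻¹ * (hw s (K + i) * q.2))
    rw [e]
    exact h3
  · rw [List.pairwise_flatMap]
    refine ⟨?_, ?_⟩
    · intro i hi
      rw [List.pairwise_map]
      refine ((hPf i (List.mem_range.1 hi)).2.2.1).imp ?_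
      intro p q hpq
      have e : (hw s i * q.1)⁻¹ * (hw s (K + i) * p.2) = q.1⁻¹ * x i * p.2 := by
        show (hw s i * q.1)⁻¹ * (hw s (K + i) * p.2) =
          q.1⁻¹ * ((hw s i)⁻¹ * hw s (K + i)) * p.2
        group
      show ¬ Good T k Z ((hw s i * q.1)⁻¹ * (hw s (K + i) * p.2))
      rw [e]
      exact hpq
    · refine (List.pairwise_lt_range (n := K)).imp_of_mem ?_
      intro i j hi hj hij p hp q hq
      have hi := List.mem_range.1 hi
      have hj := List.mem_range.1 hj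
      obtain ⟨p', hp', rfl⟩ := List.mem_map.1 hp
      obtain ⟨q', hq', rfl⟩ := List.mem_map.1 hq
      have h3 := ((hPf i hi).2.1 p' hp').2.1
      have h4 := ((hPf j hj).2.1 q' hq').1
      have hu := hw_seg hs j (K + i - j)
      have e0 : j + (K + i - j) = K + i := by omega
      rw [e0] at hu
      have h5 := hflat2 (K + i - j) (by omega) _ hu q'.1 h4 p'.2 h3
      have e : (hw s j * q'.1)⁻¹ * (hw s (K + i) * p'.2) =
          q'.1⁻¹ * ((hw s j)⁻¹ * hw s (K + i)) * p'.2 := by group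
      show ¬ Good T k Z ((hw s j * q'.1)⁻¹ * (hw s (K + i) * p'.2))
      rw [e]
      exact h5
  · have key : ∀ i < K, ∀ j < K, ∀ p' ∈ Pf i, ∀ q' ∈ Pf j,
        ¬ Good T k Z ((hw s i * p'.1)⁻¹ * (hw s j * q'.1)) := by
      intro i hi j hj p' hp' q' hq'
      have h3 := ((hPf i hi).2.1 p' hp').1
      have h4 := ((hPf j hj).2.1 q' hq').1
      have e : (hw s i * p'.1)⁻¹ * (hw s j * q'.1) =
          p'.1⁻¹ * ((hw s i)⁻¹ * hw s j) * q'.1 := by group
      rw [e]
      rcases le_total i j with hij | hij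
      · have hu := hw_seg hs i (j - i)
        have e0 : i + (j - i) = j := by omega
        rw [e0] at hu
        exact hflat2 (j - i) (by omega) _ hu _ h3 _ h4
      · have hu := hw_seg hs j (i - j)
        have e0 : j + (i - j) = i := by omega
        rw [e0] at hu
        have hu' := inv_mem_pow (hLinv m) hu
        have e1 : ((hw s j)⁻¹ * hw s i)⁻¹ = (hw s i)⁻¹ * hw s j := by group
        rw [e1] at hu'
        exact hflat2 (i - j) (by omega) _ hu' _ h3 _ h4
    intro p hp q hq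
    obtain ⟨i, hi, hp⟩ := List.mem_flatMap.1 hp
    obtain ⟨p', hp', rfl⟩ := List.mem_map.1 hp
    obtain ⟨j, hj, hq⟩ := List.mem_flatMap.1 hq
    obtain ⟨q', hq', rfl⟩ := List.mem_map.1 hq
    exact key i (List.mem_range.1 hi) j (List.mem_range.1 hj) p' hp' q' hq'
  · have hasm := assemble (EE T k m) h1E hEinv hA hB (4 * (k + 1 - (m + 1))) K hK
      (fun i => hw s i) (fun i => hw s (K + i)) Pf (by simp [hw])
      (hLpow K (hw_mem hs K)) ?_ ?_ (hLpow _ (hw_mem hs _)) ?_
      (fun i hi => (hPf i hi).1) (fun i hi => (hPf i hi).2.2.2.1)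
      (fun i hi => (hPf i hi).2.2.2.2)
    · have e : 4 * (k + 1 - (m + 1)) + 4 = 4 * (k + 1 - m) := by omega
      rw [e] at hasm
      exact hasm
    · intro i _
      have := hw_seg hs i 1
      rw [pow_one] at this
      exact hLE this
    · intro i _
      have := hw_seg hs (K + i) 1
      rw [pow_one] at this
      exact hLE this
    · have := hLpow _ (hw_mem hs (K + (K - 1)))
      have e : K + (K - 1) = 2 * K - 1 := by omega
      show hw s (K + (K - 1)) ∈ _
      rw [e] at this ⊢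
      exact this

end Pool.Agent.Helper43.NG
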