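import Mathlib

/-!
# Statements of project NG (helper43), page MP_d69e80_al: lines along minimal words (class k)
-/

set_option autoImplicit false

namespace Pool.Agent.Helper43.NG

open scoped Pointwise commutatorElement
open Subgroup

universe u

/-! ### definitions -/

/-- `Let T l x`: `x` is a commutator expression of weight `l` in the elements of `T` -/
inductive Let {G : Type u} [Group G] (T : Set G) : ℕ → G → Prop
  | base {t : G} : t ∈ T → Let T 1 t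
  | comm {i j : ℕ} {a b : G} : Let T i a → Let T j b → Let T (i + j) ⁅a, b⁆

/-- the letters of weight `l` -/
def LL {G : Type u} [Group G] (T : Set G) (l : ℕ) : Set G := {x | Let T l x}

/-- the letters of weight between `m` and `k` -/
def EE {G : Type u} [Group G] (T : Set G) (k m : ℕ) : Set G :=
  {x | ∃ l, m ≤ l ∧ l ≤ k ∧ Let T l x}

/-- the commutators of letters of weight at most `k` with total weight more than `k` -/
def DD {G : Type u} [Group G] (T : Set G) (k : ℕ) : Set G :=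
  {x | ∃ (i j : ℕ) (a b : G), i ≤ k ∧ j ≤ k ∧ k < i + j ∧ Let T i a ∧ Let T j b ∧ x = ⁅a, b⁆}

/-- the subgroup generated by the letters of weight between `m` and `k` (trivial for `m > k`) -/
def HH {G : Type u} [Group G] (T : Set G) (k m : ℕ) : Subgroup G := closure (EE T k m)

/-- `x` moves an element of `DD T k` out of `Z` -/
def Good {G : Type u} [Group G] (T : Set G) (k : ℕ) (Z : Subgroup G) (x : G) : Prop :=
  ∃ d ∈ DD T k, x * d * x⁻¹ ∉ Z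

/-- conjugates of `DD T k` by the elements `h * y`, with `h ∈ HH T k (m+1)` and `y` a product of
less than `K` letters of weight `m` -/
def SS {G : Type u} [Group G] (T : Set G) (k m K : ℕ) : Set G :=
  {x | ∃ h ∈ HH T k (m + 1), ∃ n < K, ∃ y ∈ (LL T m) ^ n, ∃ d ∈ DD T k,
    x = (h * y) * d * (h * y)⁻¹}

/-- the subgroup generated by `SS` -/
def S0 {G : Type u} [Group G] (T : Set G) (k m K : ℕ) : Subgroup G := closure (SS T k m K)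

/-- the filtration -/
def NN {G : Type u} [Group G] (T : Set G) (k m K l : ℕ) : Subgroup G := HH T k l ⊔ S0 T k m K

/-- the product of the first `n` letters of `s` -/
def hw {G : Type u} [Group G] (s : ℕ → G) : ℕ → G
  | 0 => 1
  | n + 1 => hw s n * s n

/-- `Path E a l b n`: there is a walk from `a` through the elements of `l` (in this order) to `b`
with at most `n` steps in `E` (we always assume `1 ∈ E`) -/
def Path {G : Type u} [Group G] (E : Set G) : G → List G → G → ℕ → Prop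
  | a, [], b, n => a⁻¹ * b ∈ E ^ n
  | a, q :: l, b, n => ∃ m n' : ℕ, a⁻¹ * q ∈ E ^ m ∧ Path E q l b n' ∧ m + n' ≤ n

/-! ### letters -/

/-- part LET -/
def S_LET : Prop :=
  ∀ (G : Type u) [Group G] (T : Set G), 1 ∈ T → T⁻¹ = T →
    (∀ l x, Let T l x → 1 ≤ l) ∧
    (∀ l x, Let T l x → Let T l x⁻¹) ∧
    (∀ l, 1 ≤ l → Let T l 1) ∧
    (∀ k l x, l ≤ k → Let T l x → x ∈ T ^ (3 * 2 ^ (k - 1))) ∧
    (∀ k x, x ∈ DD T k → x ∈ T ^ (6 * 2 ^ k))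

/-- part GAM -/
def S_GAM : Prop :=
  ∀ (G : Type u) [Group G] (T : Set G), T⁻¹ = T → closure T = ⊤ → ∀ k : ℕ, 1 ≤ k →
    (DD T k ⊆ ((⊤ : Subgroup G).lowerCentralSeries k : Set G)) ∧
    (⊤ : Subgroup G).lowerCentralSeries k ≤ normalClosure (DD T k)

/-! ### paths -/

/-- part PTA: elementary properties of paths -/
def S_PTA : Prop :=
  ∀ (G : Type u) [Group G] (E : Set G), 1 ∈ E →
    (∀ a l b n n', Path E a l b n → n ≤ n' → Path E a l b n') ∧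
    (∀ a l b l' c n n', Path E a l b n → Path E b l' c n' → Path E a (l ++ l') c (n + n')) ∧
    (∀ g a l b n, Path E a l b n → Path E (g * a) (l.map (g * ·)) (g * b) n) ∧
    (E⁻¹ = E → ∀ a l b n, Path E a l b n → Path E b l.reverse a n) ∧
    (∀ (T : Set G) (w : ℕ), E ⊆ T ^ w → ∀ a l b n, Path E a l b n → Path T a l b (w * n))

/-- part PTB: a path with excursions -/
def S_PTB : Prop :=
  ∀ (G : Type u) [Group G] (E : Set G), 1 ∈ E → ∀ (C δ : ℕ) (η : ℕ → G) (l : ℕ → List G),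
    1 ≤ δ → (∀ i, i + 1 < δ → (η i)⁻¹ * η (i + 1) ∈ E) →
    (∀ i < δ, Path E 1 (l i) 1 (C * (l i).length)) →
    Path E (η 0) ((List.range δ).flatMap fun i => (l i).map (η i * ·)) (η (δ - 1))
      (C * ((List.range δ).flatMap fun i => (l i).map (η i * ·)).length + (δ - 1))

/-- part PTC: products of conjugates along a path -/
def S_PTC : Prop :=
  ∀ (G : Type u) [Group G] (T : Set G), 1 ∈ T → ∀ (n₀ : ℕ) (l : List (G × G)) (a b : G) (N : ℕ),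
    Path T a (l.map Prod.fst) b N → (∀ p ∈ l, p.2 ∈ T ^ n₀) →
    a⁻¹ * (l.map fun p => p.1 * p.2 * p.1⁻¹).prod * b ∈ T ^ (N + n₀ * l.length)

/-! ### the abstract recursion -/

/-- part REC -/
def S_REC : Prop :=
  ∀ (G : Type u) [Group G] (k m : ℕ) (L : ℕ → Set G) (N H : ℕ → Subgroup G) (E : Set G)
    (Gd : G → Prop), m ≤ k → 1 ∈ E →
    (∀ l, m < l → l ≤ k → (1 : G) ∈ L l ∧ (L l)⁻¹ = L l ∧ L l ⊆ E ∧ L l ⊆ H l ∧
      H (l + 1) ≤ H l ∧ N (l + 1) ≤ N l ∧ H l ≤ N l) →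
    H (k + 1) ≤ N (k + 1) →
    (∀ l, m < l → l ≤ k → ∀ g ∈ N (m + 1), ∀ h ∈ N l, g * h * g⁻¹ * h⁻¹ ∈ N (l + 1)) →
    (∀ l, m < l → l ≤ k → ∀ h ∈ N l, ∃ n : ℕ, ∃ h' ∈ (L l) ^ n, h * h'⁻¹ ∈ N (l + 1)) →
    (∀ s ∈ N (k + 1), ∀ g, Gd g → Gd (s * g)) →
    ∀ l, m < l → l ≤ k + 1 → ∀ w : G,
      (∀ l', m < l' → l' ≤ k → ∀ h ∈ H l', w * h * w⁻¹ * h⁻¹ ∈ N (l' + 1)) →
      (∃ n ∈ N l, Gd (n * w)) →
      ∃ P : List (G × G), P ≠ [] ∧
        (∀ p ∈ P, p.1 ∈ H l ∧ p.2 ∈ H l ∧ Gd (p.1⁻¹ * w * p.2)) ∧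
        P.Pairwise (fun p q => ¬ Gd (q.1⁻¹ * w * p.2)) ∧
        Path E 1 (P.map Prod.fst) 1 (4 * (k + 1 - l) * P.length) ∧
        Path E 1 (P.map Prod.snd) 1 (4 * (k + 1 - l) * P.length)

/-! ### the concrete filtration -/

/-- part TRA -/
def S_TRA : Prop :=
  ∀ (G : Type u) [Group G] (T : Set G), 1 ∈ T → T⁻¹ = T → ∀ k m K : ℕ, 1 ≤ m → m ≤ k → 0 < K →
    (∀ g ∈ HH T k (m + 1), ∀ s ∈ S0 T k m K, g * s * g⁻¹ ∈ S0 T k m K) ∧
    (∀ l, m < l → ∀ x, x ∈ NN T k m K l ↔ ∃ s ∈ S0 T k m K, ∃ h ∈ HH T k l, x = s * h) ∧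
    (∀ l, m < l → l ≤ k → ∀ g ∈ NN T k m K (m + 1), ∀ h ∈ NN T k m K l,
      g * h * g⁻¹ * h⁻¹ ∈ NN T k m K (l + 1)) ∧
    (∀ l, m < l → l ≤ k → ∀ h ∈ NN T k m K l, ∃ n : ℕ, ∃ h' ∈ (LL T l) ^ n,
      h * h'⁻¹ ∈ NN T k m K (l + 1))

/-- part TRB -/
def S_TRB : Prop :=
  ∀ (G : Type u) [Group G] (T : Set G), 1 ∈ T → T⁻¹ = T → ∀ k m K : ℕ, 1 ≤ m → m ≤ k → 0 < K →
    ∀ n ≤ K, ∀ y ∈ (LL T m) ^ n, ∀ l, m < l → l ≤ k → ∀ h ∈ HH T k l,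
      y * h * y⁻¹ * h⁻¹ ∈ NN T k m K (l + 1)

/-- part ROT -/
def S_ROT : Prop :=
  ∀ (G : Type u) [Group G] (T : Set G), 1 ∈ T → T⁻¹ = T → ∀ k m K : ℕ, 1 ≤ m → m ≤ k → 0 < K →
    ∀ (i j : ℕ) (p q : G), p ∈ (LL T m) ^ i → q ∈ (LL T m) ^ j → i + j ≤ K + 1 →
      p * q * p⁻¹ * q⁻¹ ∈ NN T k m K (m + 1)

/-- part NFM -/
def S_NFM : Prop :=
  ∀ (G : Type u) [Group G] (T : Set G), 1 ∈ T → T⁻¹ = T → ∀ k m : ℕ, 1 ≤ m → m ≤ k →
    ∀ Z : Subgroup G,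
    (∀ n : ℕ, ∀ h ∈ HH T k (m + 1), ∀ y ∈ (LL T m) ^ n, ¬ Good T k Z (h * y)) →
    ∀ x ∈ HH T k m, ¬ Good T k Z x

/-! ### the geometric lemma -/

/-- part LVL: the first level -/
def S_LVL : Prop :=
  ∀ (G : Type u) [Group G] (T : Set G), 1 ∈ T → T⁻¹ = T → ∀ k m K : ℕ, 1 ≤ m → m ≤ k → 0 < K →
    ∀ Z : Subgroup G,
    (∀ n < K, ∀ h ∈ HH T k (m + 1), ∀ y ∈ (LL T m) ^ n, ¬ Good T k Z (h * y)) →
    (∃ h ∈ HH T k (m + 1), ∃ y ∈ (LL T m) ^ K, Good T k Z (h * y)) →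
    ∃ P : List (G × G), P ≠ [] ∧ (∀ p ∈ P, Good T k Z (p.1⁻¹ * p.2)) ∧
      P.Pairwise (fun p q => ¬ Good T k Z (q.1⁻¹ * p.2)) ∧
      (∀ p ∈ P, ∀ q ∈ P, ¬ Good T k Z (p.1⁻¹ * q.1)) ∧
      Path (EE T k m) 1 (P.map Prod.fst) 1 (4 * (k + 1 - m) * P.length) ∧
      Path (EE T k m) 1 (P.map Prod.snd) 1 (4 * (k + 1 - m) * P.length)

/-- part GEO: lines along minimal words -/
def S_GEO : Prop :=
  ∀ (G : Type u) [Group G] (T : Set G), 1 ∈ T → T⁻¹ = T → closure T = ⊤ → ∀ k : ℕ, 1 ≤ k →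
    ∀ Z : Subgroup G, (∃ x, Good T k Z x) → ∀ c ∈ DD T k, c ∈ Z →
    ∃ P : List (G × G), P ≠ [] ∧ (∀ p ∈ P, Good T k Z (p.1⁻¹ * p.2)) ∧
      P.Pairwise (fun p q => ¬ Good T k Z (q.1⁻¹ * p.2)) ∧
      (∀ p ∈ P, ∀ q ∈ P, (p.1⁻¹ * q.1) * c * (p.1⁻¹ * q.1)⁻¹ ∈ Z) ∧
      Path T 1 (P.map Prod.fst) 1 (6 * k * 2 ^ k * P.length) ∧
      Path T 1 (P.map Prod.snd) 1 (6 * k * 2 ^ k * P.length)

end Pool.Agent.Helper43.NG
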