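import Pool.Agent.Helper43.NG.Spec
import Pool.Graph.R_pool_sql_team_seeded_63374d34.N600.G3.Core

/-!
# Statements of project NG (helper43), page MP_d69e80_al: growth
-/

set_option autoImplicit false

namespace Pool.Agent.Helper43.NG

open scoped Pointwise commutatorElement
open Subgroup
open Pool.Agent.N600.G3 (Crossed AA S_ALG S_CNT)
open Pool.Agent.Helper111.EN.NSc (NS)

universe u

/-- conjugation on a normal subgroup -/
def cn {G : Type u} [Group G] (Γ : Subgroup G) [Γ.Normal] (g : G) : Γ →* Γ :=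
  (MulAut.conjNormal g).toMonoidHom

/-- `γ_{k+1}(G)` -/
abbrev gam (G : Type u) [Group G] (k : ℕ) : Subgroup G := (⊤ : Subgroup G).lowerCentralSeries k

/-- the constant -/
def Ck (k : ℕ) : ℕ := 18 * (k + 1) * 2 ^ k

/-- part THN: growth from a crossed homomorphism -/
def S_THN : Prop :=
  ∀ (G : Type u) [Group G] (T : Set G), T.Finite → 1 ∈ T → T⁻¹ = T → closure T = ⊤ →
    ∀ k : ℕ, 1 ≤ k →
    ∀ (F : Type u) [Field F] (Γ₀ : Type u) [LinearOrderedCommGroupWithZero Γ₀]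
      (v : Valuation F Γ₀) (χ : gam G k →* Fˣ) (b : gam G k → F), Crossed χ b →
    ∀ c : gam G k, (c : G) ∈ DD T k → b c = 0 → v (χ c : F) ≠ 1 → (∃ m, b m ≠ 0) →
    ∃ K > 0, ∀ R : ℕ, 2 ^ (K * R) ≤ (Nat.card ↥(T ^ (Ck k * K * R))) ^ 4

/-- part RDN -/
def S_RDN : Prop :=
  ∀ (G : Type u) [Group G] (T : Set G), T.Finite → 1 ∈ T → T⁻¹ = T → closure T = ⊤ →
    ∀ k : ℕ, 1 ≤ k → (gam G k).FG →
    (∀ x ∈ commutator (gam G k), ∀ y ∈ commutator (gam G k), x * y = y * x) →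
    ¬ (commutator (gam G k)).FG →
    ∃ K > 0, ∀ R : ℕ, 2 ^ (K * R) ≤ (Nat.card ↥(T ^ (Ck k * K * R))) ^ 4

/-- part CRN: the dichotomy for `Γ'' = 1` -/
def S_CRN : Prop :=
  ∀ (G : Type u) [Group G] (T : Set G), T.Finite → 1 ∈ T → T⁻¹ = T → closure T = ⊤ →
    ∀ k : ℕ, 1 ≤ k →
    (∀ x ∈ commutator (gam G k), ∀ y ∈ commutator (gam G k), x * y = y * x) →
    (∀ n : ℕ, 2 ^ n ≤ (Nat.card ↥(T ^ n)) ^ (4 * Ck k)) ∨ NS (⊤ : Subgroup G)

/-- the second derived subgroup of `γ_{k+1}(G)`, as a subgroup of `G` -/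
def Gpp (G : Type u) [Group G] (k : ℕ) : Subgroup G :=
  ⁅⁅gam G k, gam G k⁆, ⁅gam G k, gam G k⁆⁆

instance (G : Type u) [Group G] (k : ℕ) : (Gpp G k).Normal := by
  unfold Gpp; infer_instance

/-- part MNN: the general dichotomy -/
def S_MNN : Prop :=
  ∀ (G : Type u) [Group G] (T : Set G), T.Finite → 1 ∈ T → T⁻¹ = T → closure T = ⊤ →
    ∀ k : ℕ, 1 ≤ k →
    (∀ n : ℕ, 2 ^ n ≤ (Nat.card ↥(T ^ n)) ^ (4 * Ck k)) ∨
      (NS (⊤ : Subgroup (G ⧸ Gpp G k)) ∧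
        (Group.IsNilpotent (⁅gam G k, gam G k⁆ : Subgroup G) → NS (⊤ : Subgroup G)))

/-- part FNN: the final statement -/
def S_FNN : Prop :=
  ∀ (G : Type u) [Group G] (S : Set G), S.Finite → S⁻¹ = S → closure S = ⊤ →
    ∀ k : ℕ, 1 ≤ k → ∀ (H : Subgroup G) (d : ℕ), H.index ≠ 0 → H.index ≤ d →
    Real.log 2 / (4 * Ck k * (2 * d - 1)) ≤ H746UG.rho S ∨
      ((∀ K : Subgroup (H ⧸ Gpp H k), K.FG) ∧
        (Group.IsNilpotent (⁅gam H k, gam H k⁆ : Subgroup H) → ∀ K : Subgroup G, K.FG))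

end Pool.Agent.Helper43.NG
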