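import Pool.Agent.Helper43.NG.Spec2
import Pool.Graph.R_pool_sql_team_seeded_63374d34.N600.L3.Main

/-!
# Statements of project NG (helper43), page MP_d69e80_al: growth and Mahler measures
-/

set_option autoImplicit false

namespace Pool.Agent.Helper43.NG

open scoped Pointwise commutatorElement
open Subgroup Polynomial
open Pool.Agent.N600.G3 (Crossed AA)
open Pool.Agent.N600.L3 (Expa phi)
open Pool.Agent.W963.GE (MM UnitNotRoot)
open Pool.Agent.TH53.UG (act)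

universe u

/-- part THM: growth from a crossed homomorphism -/
def S_THM : Prop :=
  ∀ (G : Type u) [Group G] (T : Set G), T.Finite → 1 ∈ T → T⁻¹ = T →
    Subgroup.closure T = ⊤ → ∀ k : ℕ, 1 ≤ k →
    ∀ (F : Type u) [Field F] [CharZero F] (χ : gam G k →* Fˣ) (b : gam G k → F),
    Crossed χ b → ∀ c : gam G k, (c : G) ∈ DD T k → b c = 0 → (∀ n > 0, (χ c) ^ n ≠ 1) →
    (∃ m, b m ≠ 0) → (∀ m, IsIntegral ℤ (χ m : F)) → ∀ B : ℝ, 1 ≤ B →
    (∀ m, (∃ n > 0, (χ m) ^ n = 1) ∨ Expa F (χ m : F) B) →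
    ∃ K : ℕ, 0 < K ∧ ∀ R : ℕ, (K : ℝ) * R * phi B / 2 ≤ Real.log (Nat.card ↥(T ^ (Ck k * K * R)))

/-- part RDM: growth from an eigenfunction -/
def S_RDM : Prop :=
  ∀ (G : Type u) [Group G] (T : Set G), T.Finite → 1 ∈ T → T⁻¹ = T →
    Subgroup.closure T = ⊤ → ∀ k : ℕ, 1 ≤ k → (commutator (gam G k)).FG →
    ∀ (χ : gam G k →* ℂˣ) (f : gam G k → ℂ),
    (∀ x ∈ commutator (gam G k), ∀ y ∈ commutator (gam G k), f (x * y) = f x + f y) →
    (∀ m, ∀ x ∈ commutator (gam G k), f (m * x * m⁻¹) = (χ m : ℂ) * f x) →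
    (∃ x ∈ commutator (gam G k), f x ≠ 0) → (∃ m, ∀ n > 0, (χ m) ^ n ≠ 1) →
    ∀ B : ℝ, 1 ≤ B → (∀ m, (∃ n > 0, (χ m) ^ n = 1) ∨ B ≤ MM (χ m : ℂ) ^ 2) →
    ∃ K : ℕ, 0 < K ∧ ∀ R : ℕ, (K : ℝ) * R * phi B / 2 ≤ Real.log (Nat.card ↥(T ^ (Ck k * K * R)))

/-- part RHM: the growth rate -/
def S_RHM : Prop :=
  ∀ (G : Type u) [Group G] (T : Set G), T.Finite → 1 ∈ T → ∀ (C K : ℕ) (p : ℝ), 0 < K → 0 < C →
    (∀ R : ℕ, (K : ℝ) * R * p / 2 ≤ Real.log (Nat.card ↥(T ^ (C * K * R)))) →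
    p / (2 * C) ≤ H746UG.rho T

/-- part EIM: the bound by a Mahler measure for `Γ'' = 1` -/
def S_EIM : Prop :=
  ∀ (G : Type u) [Group G] (T : Set G), T.Finite → 1 ∈ T → T⁻¹ = T →
    Subgroup.closure T = ⊤ → ∀ k : ℕ, 1 ≤ k →
    (∀ x ∈ commutator (gam G k), ∀ y ∈ commutator (gam G k), x * y = y * x) →
    (gam G k).FG → (commutator (gam G k)).FG → ¬ Group.IsVirtuallyNilpotent (gam G k) →
    ∃ (χ : gam G k →* ℂˣ) (f : gam G k → ℂ) (m : gam G k),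
      (∀ x ∈ commutator (gam G k), ∀ y ∈ commutator (gam G k), f (x * y) = f x + f y) ∧
      (∀ m, ∀ x ∈ commutator (gam G k), f (m * x * m⁻¹) = (χ m : ℂ) * f x) ∧
      (∃ x ∈ commutator (gam G k), f x ≠ 0) ∧ (∀ n > 0, (χ m) ^ n ≠ 1) ∧
      min 1 (Real.log (MM (χ m : ℂ))) / (32 * Ck k) ≤ H746UG.rho T

/-- the exceptional case -/
def Exc (H : Type u) [Group H] (k : ℕ) : Prop :=
  Group.IsVirtuallyNilpotent (H ⧸ (⁅gam H k, gam H k⁆ : Subgroup H)) ∧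
    Group.IsVirtuallyNilpotent (gam H k ⧸ derivedSeries (gam H k) 2) ∧
    (Group.IsNilpotent (⁅gam H k, gam H k⁆ : Subgroup H) → Group.IsVirtuallyNilpotent (gam H k))

/-- part COM: the dichotomy for an arbitrary group -/
def S_COM : Prop :=
  ∀ (G : Type u) [Group G] (T : Set G), T.Finite → 1 ∈ T → T⁻¹ = T →
    Subgroup.closure T = ⊤ → ∀ k : ℕ, 1 ≤ k →
    (∀ n : ℕ, 2 ^ n ≤ (Nat.card ↥(T ^ n)) ^ (4 * Ck k)) ∨
      (Group.IsVirtuallyNilpotent (gam G k ⧸ derivedSeries (gam G k) 2) ∧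
        (Group.IsNilpotent (⁅gam G k, gam G k⁆ : Subgroup G) →
          Group.IsVirtuallyNilpotent (gam G k))) ∨
      ∃ (x : ℂ) (t : G), UnitNotRoot x ∧ t ∈ gam G k ∧
        (∀ p : ℤ[X], aeval (act ⁅gam G k, gam G k⁆ t) p = 0 → aeval x p = 0) ∧
        (∀ r : ℕ, Module.rank ℤ (Additive (Abelianization (⁅gam G k, gam G k⁆ : Subgroup G))) ≤
          (r : Cardinal.{u}) → (minpoly ℤ x).natDegree ≤ r) ∧
        min 1 (Real.log (MM x)) / (32 * Ck k) ≤ H746UG.rho T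

/-- part MEM: the quotient by `Γ'` -/
def S_MEM : Prop :=
  ∀ (G : Type u) [Group G] (T : Set G), T.Finite → Subgroup.closure T = ⊤ → ∀ k : ℕ, 1 ≤ k →
    Real.log 2 / (4 * Ck k) ≤ H746UG.rho T ∨
    Group.IsVirtuallyNilpotent (G ⧸ (⁅gam G k, gam G k⁆ : Subgroup G)) ∨
      ∃ (x : ℂ) (t : G), UnitNotRoot x ∧
        (∀ p : ℤ[X], aeval (act (gam G k) t) p = 0 → aeval x p = 0) ∧
        (∀ r : ℕ, Module.rank ℤ (Additive (Abelianization (gam G k))) ≤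
          (r : Cardinal.{u}) → (minpoly ℤ x).natDegree ≤ r) ∧
        min 1 (Real.log (MM x)) / (32 * Ck k) ≤ H746UG.rho T

/-- part FIM: the final statement -/
def S_FIM : Prop :=
  ∃ c : ℝ, 0 < c ∧ ∀ (G : Type u) [Group G] (S : Set G) (k : ℕ) (H : Subgroup G) (d : ℕ),
    S.Finite → S⁻¹ = S → Subgroup.closure S = ⊤ → 1 ≤ k → H.index ≠ 0 → H.index ≤ d →
    Exc H k ∨
    ((Real.log 2 / (4 * Ck k * (2 * d - 1)) ≤ H746UG.rho S ∨
      ∃ (x : ℂ) (t : H), UnitNotRoot x ∧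
        ((∀ p : ℤ[X], aeval (act (gam H k) t) p = 0 → aeval x p = 0) ∨
          (t ∈ gam H k ∧
            ∀ p : ℤ[X], aeval (act ⁅gam H k, gam H k⁆ t) p = 0 → aeval x p = 0)) ∧
        min 1 (Real.log (MM x)) / (32 * Ck k * (2 * d - 1)) ≤ H746UG.rho S) ∧
      ∀ m : ℕ, Module.rank ℤ (Additive (Abelianization (gam H k))) ≤ (m : Cardinal.{u}) →
          Module.rank ℤ (Additive (Abelianization (⁅gam H k, gam H k⁆ : Subgroup H))) ≤
            (m : Cardinal.{u}) → c / (Ck k * d * Real.log (2 * m) ^ 3) ≤ H746UG.rho S)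

end Pool.Agent.Helper43.NG
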