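import Pool.Agent.Helper43.NG.Spec3
import Pool.Agent.Helper43.NG.RDN

/-!
# Parts THM, RDM, EIM of project NG (helper43), page MP_d69e80_al
-/

set_option autoImplicit false

namespace Pool.Agent.Helper43.NG

open scoped Pointwise commutatorElement
open Subgroup Polynomial
open Pool.Agent.N600.G3 (Crossed AA f_one)
open Pool.Agent.N600.L3 (Expa phi S_CNT2 S_INTG S_MAH S_ALG2 S_PHI expa_up expa_mono charZero_up)
open Pool.Agent.W963.GE (MM UnitNotRoot MM_ge mm_dob)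

universe u

theorem thm (hG : S_GEO.{u}) (hL : S_LET.{u}) (hA : S_PTA.{u}) (hC : S_PTC.{u}) (hM : S_GAM.{u})
    (hN : S_CNT2.{u}) : S_THM.{u} := by
  intro G _ T hfin h1T hinv hgen k hk F _ _ χ b hb c hc hbc hvc hne hint B hB hE
  obtain ⟨hDD, hle⟩ := hM G T hinv hgen k hk
  obtain ⟨D, hD, g, c', d', e1, e2, e3, e4, e5⟩ := lines hG hL hA hC T hfin h1T hinv hgen k hk
    (gam G k) hDD hle F χ b hb c hc hbc hne
  have hb' : ∀ i, Crossed (χ.comp (cn (gam G k) (g i))) (fun m => b (cn (gam G k) (g i) m)) := by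
    intro i m m'
    show b (cn _ (g i) (m * m')) = b (cn _ (g i) m) + (χ (cn _ (g i) m) : F) * b (cn _ (g i) m')
    rw [map_mul, hb]
  obtain ⟨ε, hε⟩ := hN (gam G k) F D _ _ hb' c' d' e1 e2 e3 (fun i n hn => by
    show (χ (cn _ (g i) (c' i))) ^ n ≠ 1
    rw [e4]
    exact hvc n hn) (fun i m => hint (cn _ (g i) m)) B hB (fun i m => hE (cn _ (g i) m))
  refine ⟨D, hD, fun R => (hε R).trans ?_⟩
  have hpos : 0 < Nat.card (Set.range fun δ : Fin R → Fin D → Bool =>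
        (List.ofFn fun r => AA d' (δ r) * AA c' ε * (AA d' (δ r))⁻¹).prod) := by
    rw [Nat.card_coe_set_eq]
    exact (Set.ncard_pos (Set.finite_range _)).2 (Set.range_nonempty _)
  exact Real.log_le_log (by exact_mod_cast hpos) (by exact_mod_cast e5 ε R)

theorem rdm (hI : S_INTG.{u}) (hMa : S_MAH) (hT : S_THM.{u}) (hM : S_GAM.{u}) : S_RDM.{u} := by
  intro G _ T hfin h1T hinv hgen k hk hNfg χ f hf1 hf2 hf3 hinf B hB hE
  obtain ⟨hDD, hle⟩ := hM G T hinv hgen k hk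
  have hint := hI (gam G k) hNfg χ f hf1 hf2 hf3
  let e : ℂ ≃+* ULift.{u} ℂ := (ULift.ringEquiv : ULift.{u} ℂ ≃+* ℂ).symm
  have hCZ : CharZero (ULift.{u} ℂ) := charZero_up
  let ψ : ℂˣ →* (ULift.{u} ℂ)ˣ := Units.map (e : ℂ →* ULift.{u} ℂ)
  have hψ : Function.Injective ψ := Units.map_injective e.injective
  let χ' : gam G k →* (ULift.{u} ℂ)ˣ := ψ.comp χ
  have hχ' : ∀ m, ((χ' m : (ULift.{u} ℂ)ˣ) : ULift.{u} ℂ) = e (χ m : ℂ) := fun m => rfl
  have hpow : ∀ m n, (χ' m) ^ n = 1 ↔ (χ m) ^ n = 1 := by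
    intro m n
    show (ψ (χ m)) ^ n = 1 ↔ _
    rw [← map_pow, ← map_one ψ, hψ.eq_iff]
  -- the torsion subgroup
  let Tor : Subgroup (ULift.{u} ℂ)ˣ :=
    { carrier := {x | IsOfFinOrder x}
      mul_mem' := fun {a b} ha hb => IsOfFinOrder.mul (show IsOfFinOrder a from ha)
        (show IsOfFinOrder b from hb)
      one_mem' := IsOfFinOrder.one
      inv_mem' := fun {a} ha => IsOfFinOrder.inv (show IsOfFinOrder a from ha) }
  have htor : ∀ x : (ULift.{u} ℂ)ˣ, x ∉ Tor ↔ ∀ n > 0, x ^ n ≠ 1 := by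
    intro x
    constructor
    · intro h n hn hx
      exact h (isOfFinOrder_iff_pow_eq_one.2 ⟨n, hn, hx⟩)
    · intro h hx
      obtain ⟨n, hn, h'⟩ := isOfFinOrder_iff_pow_eq_one.1 hx
      exact h n hn h'
  obtain ⟨m0, hm0⟩ := hinf
  obtain ⟨x0, hx0, hfx0⟩ := hf3
  obtain ⟨g, b, hb, c, hc, hbc, hvc, hne⟩ := cross_of_alg (DD T k) (gam G k) hDD hle
    (ULift.{u} ℂ) χ' (fun x => e (f x)) Tor
    (fun x hx y hy => by
      show e (f (x * y)) = _
      rw [hf1 x hx y hy, map_add])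
    (fun m x hx => by
      show e (f (m * x * m⁻¹)) = _
      rw [hf2 m x hx, map_mul]
      rfl)
    ⟨x0, hx0, fun h => hfx0 (e.injective (by rw [map_zero]; exact h))⟩
    ⟨m0, (htor _).2 fun n hn h => hm0 n hn ((hpow m0 n).1 h)⟩
  refine hT G T hfin h1T hinv hgen k hk (ULift.{u} ℂ) (χ'.comp (cn _ g)) b hb c hc hbc ?_ hne ?_ B hB
    ?_
  · exact (htor _).1 hvc
  · intro m
    show IsIntegral ℤ ((χ' (cn _ g m) : (ULift.{u} ℂ)ˣ) : ULift.{u} ℂ)
    rw [hχ']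
    exact (hint (cn _ g m)).1.map (e : ℂ →+* ULift.{u} ℂ).toIntAlgHom
  · intro m
    rcases hE (cn _ g m) with ⟨n, hn, h⟩ | h
    · exact Or.inl ⟨n, hn, (hpow _ n).2 h⟩
    · right
      show Expa _ ((χ' (cn _ g m) : (ULift.{u} ℂ)ˣ) : ULift.{u} ℂ) B
      rw [hχ']
      exact expa_mono h (expa_up (hMa _ (hint (cn _ g m)).1))

theorem eim (hA : S_ALG2.{u}) (hI : S_INTG.{u}) (hR : S_RHM.{u}) (hP : S_PHI)
    (hD : S_RDM.{u}) : S_EIM.{u} := by
  intro G _ T hfin h1T hinv hgen k hk habel hFG hNfg hnv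
  have hFG' : Group.FG (gam G k) := (Group.fg_iff_subgroup_fg _).2 hFG
  obtain ⟨χ, f, hf1, hf2, hf3, hinf⟩ := hA (gam G k) habel hNfg hnv
  have hint := hI (gam G k) hNfg χ f hf1 hf2 hf3
  obtain ⟨r, hr⟩ : ∃ r : ℕ, Module.rank ℤ
      (Additive (Abelianization (commutator (gam G k)))) ≤ (r : Cardinal.{u}) := by
    have h0 : Group.FG (commutator (gam G k)) := (Group.fg_iff_subgroup_fg _).2 hNfg
    have h1 : Group.FG (Abelianization (commutator (gam G k))) :=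
      Group.fg_of_surjective (f := Abelianization.of) (QuotientGroup.mk_surjective)
    have h2 : Module.Finite ℤ (Additive (Abelianization (commutator (gam G k)))) :=
      Module.Finite.iff_addGroup_fg.2 (GroupFG.iff_add_fg.1 h1)
    obtain ⟨r, hr⟩ := Cardinal.lt_aleph0.1 (Module.rank_lt_aleph0 ℤ
      (Additive (Abelianization (commutator (gam G k)))))
    exact ⟨r, hr.le⟩
  obtain ⟨c0, hc0, hdob⟩ := mm_dob
  set 𝒮 : Set ℝ := {y | ∃ m, (∀ n > 0, (χ m) ^ n ≠ 1) ∧ y = MM (χ m : ℂ)} with h𝒮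
  have hne : 𝒮.Nonempty := by
    obtain ⟨m, hm⟩ := hinf
    exact ⟨_, m, hm, rfl⟩
  have hroot : ∀ m, (∀ n > 0, (χ m) ^ n ≠ 1) → ∀ n > 0, (χ m : ℂ) ^ n ≠ 1 := by
    intro m hm n hn h
    apply hm n hn
    apply Units.ext
    rw [Units.val_pow_eq_pow_val, h, Units.val_one]
  set δ : ℝ := c0 / (Real.log (2 * r)) ^ 3 with hδ
  have hlow0 : ∀ m, (∀ n > 0, (χ m) ^ n ≠ 1) → (1 : ℝ) ≤ r ∧ δ ≤ Real.log (MM (χ m : ℂ)) := by
    intro m hm
    have h1 := hdob (χ m : ℂ) (hint m).1 (Units.ne_zero _) (hroot m hm)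
    have h2 : (minpoly ℤ (χ m : ℂ)).natDegree ≤ r := (hint m).2 r hr
    have h3 : 0 < (minpoly ℤ (χ m : ℂ)).natDegree := minpoly.natDegree_pos (hint m).1
    have h2' : ((minpoly ℤ (χ m : ℂ)).natDegree : ℝ) ≤ r := by exact_mod_cast h2
    have h3' : (1 : ℝ) ≤ (minpoly ℤ (χ m : ℂ)).natDegree := by exact_mod_cast h3
    refine ⟨h3'.trans h2', le_trans ?_ h1⟩
    have h4 : 0 < Real.log (2 * (minpoly ℤ (χ m : ℂ)).natDegree) := Real.log_pos (by linarith)
    have h5 : Real.log (2 * (minpoly ℤ (χ m : ℂ)).natDegree) ≤ Real.log (2 * r) :=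
      Real.log_le_log (by linarith) (by linarith)
    rw [hδ]
    gcongr
  have hr1 : (1 : ℝ) ≤ r := by
    obtain ⟨m, hm⟩ := hinf
    exact (hlow0 m hm).1
  have hδ0 : 0 < δ := by
    have : 0 < Real.log (2 * r) := Real.log_pos (by linarith)
    positivity
  have hMpos : ∀ m, 0 < MM (χ m : ℂ) := fun m => zero_lt_one.trans_le (MM_ge _ (hint m).1)
  have hlow : ∀ y ∈ 𝒮, Real.exp δ ≤ y := by
    rintro y ⟨m, hm, rfl⟩
    rw [← Real.le_log_iff_exp_le (hMpos m)]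
    exact (hlow0 m hm).2
  set M0 := sInf 𝒮 with hM0
  have hM0e : Real.exp δ ≤ M0 := le_csInf hne hlow
  have h1M0 : 1 < M0 := (Real.one_lt_exp_iff.2 hδ0).trans_le hM0e
  have hbdd : BddBelow 𝒮 := ⟨_, hlow⟩
  obtain ⟨K, hK, hgr⟩ := hD G T hfin h1T hinv hgen k hk hNfg χ f hf1 hf2 hf3 hinf (M0 ^ 2)
    (by nlinarith) (fun m => by
      by_cases h : ∃ n > 0, (χ m) ^ n = 1
      · exact Or.inl h
      · right
        push Not at h
        have h1 : M0 ≤ MM (χ m : ℂ) := csInf_le hbdd ⟨m, h, rfl⟩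
        have h2 : 0 ≤ M0 := by linarith
        gcongr)
  have hCk : 0 < Ck k := by unfold Ck; positivity
  have h44 := hR G T hfin h1T (Ck k) K (phi (M0 ^ 2)) hK hCk hgr
  have hphi := hP M0 h1M0.le
  obtain ⟨y, ⟨m, hm, rfl⟩, hy⟩ : ∃ y ∈ 𝒮, y < M0 ^ 2 :=
    exists_lt_of_csInf_lt hne (by nlinarith)
  refine ⟨χ, f, m, hf1, hf2, hf3, hm, ?_⟩
  have hlog : Real.log (MM (χ m : ℂ)) ≤ 2 * Real.log M0 := by
    have h1 := Real.log_le_log (hMpos m) hy.le
    rw [Real.log_pow] at h1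
    exact_mod_cast h1
  have hL0 : 0 < Real.log M0 := Real.log_pos h1M0
  have hmin : min 1 (Real.log (MM (χ m : ℂ))) ≤ 2 * min 1 (Real.log M0) := by
    rcases le_total 1 (Real.log M0) with h | h
    · rw [min_eq_left h]
      exact (min_le_left _ _).trans (by norm_num)
    · rw [min_eq_right h]
      exact (min_le_right _ _).trans hlog
  have hCk' : (0 : ℝ) < Ck k := by exact_mod_cast hCk
  have h7 : min 1 (Real.log (MM (χ m : ℂ))) ≤ 16 * phi (M0 ^ 2) := by linarith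
  calc min 1 (Real.log (MM (χ m : ℂ))) / (32 * Ck k) ≤ 16 * phi (M0 ^ 2) / (32 * Ck k) := by
        gcongr
    _ = phi (M0 ^ 2) / (2 * Ck k) := by field_simp; ring
    _ ≤ _ := h44

end Pool.Agent.Helper43.NG
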