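import Pool.Agent.Helper43.NG.Spec2
import Pool.Agent.Helper43.NG.LVL

/-!
# Part THN of project NG (helper43), page MP_d69e80_al
-/

set_option autoImplicit false

namespace Pool.Agent.Helper43.NG

open scoped Pointwise commutatorElement
open Subgroup
open Pool.Agent.N600.G3 (Crossed AA S_ALG S_CNT AA_map prod_mem_pow finite_pow)
open Pool.Agent.N918.G3 (zeroSub)

universe u

lemma cn_coe {G : Type u} [Group G] (Γ : Subgroup G) [Γ.Normal] (g : G) (m : Γ) :
    ((cn Γ g m : Γ) : G) = g * m * g⁻¹ := rfl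

lemma cn_cn {G : Type u} [Group G] (Γ : Subgroup G) [Γ.Normal] (g h : G) (m : Γ) :
    cn Γ g (cn Γ h m) = cn Γ (g * h) m := by
  apply Subtype.ext
  rw [cn_coe, cn_coe, cn_coe]
  group

lemma cn_one {G : Type u} [Group G] (Γ : Subgroup G) [Γ.Normal] (m : Γ) : cn Γ 1 m = m := by
  apply Subtype.ext
  rw [cn_coe]
  group

/-- the subgroup of `G` on which a crossed homomorphism on `Γ` vanishes -/
def ZZ {G : Type u} [Group G] {Γ : Subgroup G} {F : Type u} [Field F] {χ : Γ →* Fˣ} {b : Γ → F}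
    (hb : Crossed χ b) : Subgroup G := (zeroSub hb).map Γ.subtype

lemma mem_ZZ {G : Type u} [Group G] {Γ : Subgroup G} {F : Type u} [Field F] {χ : Γ →* Fˣ}
    {b : Γ → F} (hb : Crossed χ b) (m : Γ) : (m : G) ∈ ZZ hb ↔ b m = 0 := by
  constructor
  · rintro ⟨m', hm', he⟩
    have : m' = m := Subtype.ext he
    rw [← this]
    exact hm'
  · intro h
    exact ⟨m, h, rfl⟩

/-- lengths of products of conjugates along a path -/
lemma AA_len {G : Type u} [Group G] {T : Set G} (h1 : 1 ∈ T) (hC : S_PTC.{u}) {D n₀ N : ℕ}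
    (y : Fin D → G) (c : Fin D → G) (hc : ∀ j, c j ∈ T ^ n₀)
    (hp : Path T 1 (List.ofFn y) 1 N) (x : Fin D → Bool) :
    AA (fun j => y j * c j * (y j)⁻¹) x ∈ T ^ (N + n₀ * D) := by
  have h := hC G T h1 n₀ (List.ofFn fun j => (y j, if x j then c j else 1)) 1 1 N
    (by
      rw [List.map_ofFn]
      exact hp)
    (by
      intro p hp
      obtain ⟨j, rfl⟩ := (List.mem_ofFn' _ _).1 hp
      show (if x j then c j else 1) ∈ T ^ n₀
      split_ifs
      · exact hc j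
      · simpa using Set.pow_mem_pow (n := n₀) h1)
  rw [List.map_ofFn, List.length_ofFn, inv_one, one_mul, mul_one] at h
  have e : (List.ofFn ((fun p : G × G => p.1 * p.2 * p.1⁻¹) ∘
      fun j => (y j, if x j then c j else 1))) =
      List.ofFn fun j => if x j then y j * c j * (y j)⁻¹ else 1 := by
    congr 1
    funext j
    show y j * (if x j then c j else 1) * (y j)⁻¹ = _
    split_ifs
    · rfl
    · group
  rw [e] at h
  exact h

/-- the lines and the lengths of the words, for a normal subgroup `Γ` generated by the conjugates of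
`DD T k` -/
theorem lines (hG : S_GEO.{u}) (hL : S_LET.{u}) (hA : S_PTA.{u}) (hC : S_PTC.{u})
    {G : Type u} [Group G] (T : Set G) (hfin : T.Finite) (h1T : 1 ∈ T) (hinv : T⁻¹ = T)
    (hgen : closure T = ⊤) (k : ℕ) (hk : 1 ≤ k) (Γ : Subgroup G) [Γ.Normal]
    (hDD : DD T k ⊆ (Γ : Set G)) (hle : Γ ≤ normalClosure (DD T k))
    (F : Type u) [Field F] (χ : Γ →* Fˣ) (b : Γ → F) (hb : Crossed χ b)
    (c : Γ) (hc : (c : G) ∈ DD T k) (hbc : b c = 0) (hne : ∃ m, b m ≠ 0) :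
    ∃ D > 0, ∃ (g : Fin D → G) (c' d' : Fin D → Γ),
      (∀ i j, b (cn Γ (g i) (c' j)) = 0) ∧ (∀ i j, i < j → b (cn Γ (g i) (d' j)) = 0) ∧
      (∀ i, b (cn Γ (g i) (d' i)) ≠ 0) ∧ (∀ i, cn Γ (g i) (c' i) = c) ∧
      ∀ (ε : Fin D → Bool) (R : ℕ), Nat.card (Set.range fun δ : Fin R → Fin D → Bool =>
        (List.ofFn fun r => AA d' (δ r) * AA c' ε * (AA d' (δ r))⁻¹).prod) ≤
          Nat.card ↥(T ^ (Ck k * D * R)) := by
  classical
  obtain ⟨-, -, -, -, l5⟩ := hL G T h1T hinv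
  have hZ : ∀ (g : G) (d : Γ), g * (d : G) * g⁻¹ ∈ ZZ hb ↔ b (cn Γ g d) = 0 := by
    intro g d
    rw [← mem_ZZ hb, cn_coe]
  -- some element is good
  have hex : ∃ x, Good T k (ZZ hb) x := by
    by_contra hcon
    push Not at hcon
    obtain ⟨m, hm⟩ := hne
    apply hm
    rw [← mem_ZZ hb]
    have h2 : normalClosure (DD T k) ≤ ZZ hb := by
      rw [Subgroup.normalClosure, Subgroup.closure_le]
      intro x hx
      rw [Group.mem_conjugatesOfSet_iff] at hx
      obtain ⟨y, hy, hxy⟩ := hx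
      obtain ⟨w, hw⟩ := isConj_iff.1 hxy
      by_contra hcon2
      refine hcon w ⟨y, hy, ?_⟩
      rw [hw]
      exact hcon2
    exact h2 (hle m.2)
  obtain ⟨P, hP0, hP1, hP2, hP3, hP4, hP5⟩ := hG G T h1T hinv hgen k hk (ZZ hb) hex (c : G) hc
    ((mem_ZZ hb c).2 hbc)
  -- the reversed list
  set D := P.length with hD
  have hDpos : 0 < D := List.length_pos_iff.2 hP0
  set Q := P.reverse with hQ
  have hQD : Q.length = D := List.length_reverse
  let pr : Fin D → G × G := fun j => Q.get (j.cast hQD.symm)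
  have hprmem : ∀ j, pr j ∈ P := fun j => List.mem_reverse.1 (List.get_mem _ _)
  have hprlt : ∀ i j : Fin D, i < j → ¬ Good T k (ZZ hb) ((pr i).1⁻¹ * (pr j).2) := by
    intro i j hij
    have h2 : Q.Pairwise (fun p q => ¬ Good T k (ZZ hb) (p.1⁻¹ * q.2)) := by
      rw [hQ, List.pairwise_reverse]
      exact hP2
    exact (List.pairwise_iff_get.1 h2) (i.cast hQD.symm) (j.cast hQD.symm) (by
      show (i : ℕ) < j
      exact hij)
  have hgood : ∀ j, ∃ d : Γ, (d : G) ∈ DD T k ∧ b (cn Γ ((pr j).1⁻¹ * (pr j).2) d) ≠ 0 := by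
    intro j
    obtain ⟨d, hd, hg⟩ := hP1 _ (hprmem j)
    refine ⟨⟨d, hDD hd⟩, hd, ?_⟩
    rw [ne_eq, ← hZ]
    exact hg
  choose d hd hbd using hgood
  let g : Fin D → G := fun i => (pr i).1⁻¹
  let c' : Fin D → Γ := fun j => cn Γ (pr j).1 c
  let d' : Fin D → Γ := fun j => cn Γ (pr j).2 (d j)
  have e1 : ∀ i j, b (cn Γ (g i) (c' j)) = 0 := by
    intro i j
    show b (cn Γ (g i) (cn Γ (pr j).1 c)) = 0
    rw [cn_cn, ← hZ]
    exact hP3 _ (hprmem i) _ (hprmem j)
  have e2 : ∀ i j, i < j → b (cn Γ (g i) (d' j)) = 0 := by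
    intro i j hij
    show b (cn Γ (g i) (cn Γ (pr j).2 (d j))) = 0
    rw [cn_cn, ← hZ]
    by_contra hcon
    exact hprlt i j hij ⟨(d j : G), hd j, hcon⟩
  have e3 : ∀ i, b (cn Γ (g i) (d' i)) ≠ 0 := by
    intro i
    show b (cn Γ (g i) (cn Γ (pr i).2 (d i))) ≠ 0
    rw [cn_cn]
    exact hbd i
  have e4 : ∀ i, cn Γ (g i) (c' i) = c := by
    intro i
    show cn Γ (g i) (cn Γ (pr i).1 c) = c
    rw [cn_cn]
    have : g i * (pr i).1 = 1 := inv_mul_cancel _
    rw [this, cn_one]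
  -- lengths
  obtain ⟨b1, -, -, a4, -⟩ := hA G T h1T
  have hpath : ∀ (f : G × G → G), Path T 1 (P.map f) 1 (6 * k * 2 ^ k * D) →
      Path T 1 (List.ofFn fun j => f (pr j)) 1 (6 * k * 2 ^ k * D) := by
    intro f hf
    have h3 := a4 hinv _ _ _ _ hf
    have e : (List.ofFn fun j => f (pr j)) = (P.map f).reverse := by
      rw [← List.map_reverse, ← hQ]
      apply List.ext_get
      · simp [hQD]
      · intro n h4 h5
        simp [pr]
    rw [e]
    exact h3
  have hL1 := fun x => AA_len h1T hC (fun j => (pr j).1) (fun _ => (c : G))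
    (fun _ => l5 k _ hc) (hpath Prod.fst hP4) x
  have hL2 := fun x => AA_len h1T hC (fun j => (pr j).2) (fun j => (d j : G))
    (fun j => l5 k _ (hd j)) (hpath Prod.snd hP5) x
  refine ⟨D, hDpos, g, c', d', e1, e2, e3, e4, fun ε R => ?_⟩
  have hmem : ∀ δ : Fin R → Fin D → Bool,
      ((((List.ofFn fun r => AA d' (δ r) * AA c' ε * (AA d' (δ r))⁻¹).prod :
        Γ)) : G) ∈ T ^ (Ck k * D * R) := by
    intro δ
    have h5 : ((((List.ofFn fun r => AA d' (δ r) * AA c' ε * (AA d' (δ r))⁻¹).prod :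
        Γ)) : G) = (List.ofFn fun r => (((AA d' (δ r) * AA c' ε * (AA d' (δ r))⁻¹ :
          Γ)) : G)).prod := by
      have := map_list_prod Γ.subtype
        (List.ofFn fun r => AA d' (δ r) * AA c' ε * (AA d' (δ r))⁻¹)
      rw [List.map_ofFn] at this
      exact this
    rw [h5]
    apply prod_mem_pow
    intro r
    have h6 : ((AA d' (δ r) : Γ) : G) ∈ T ^ (6 * k * 2 ^ k * D + 6 * 2 ^ k * D) := by
      have := AA_map Γ.subtype d' (δ r)
      show Γ.subtype _ ∈ _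
      rw [this]
      exact hL2 (δ r)
    have h7 : ((AA c' ε : Γ) : G) ∈ T ^ (6 * k * 2 ^ k * D + 6 * 2 ^ k * D) := by
      have := AA_map Γ.subtype c' ε
      show Γ.subtype _ ∈ _
      rw [this]
      exact hL1 ε
    have h8 : T ^ (Ck k * D) = T ^ (6 * k * 2 ^ k * D + 6 * 2 ^ k * D) *
        T ^ (6 * k * 2 ^ k * D + 6 * 2 ^ k * D) * T ^ (6 * k * 2 ^ k * D + 6 * 2 ^ k * D) := by
      rw [← pow_add, ← pow_add]; congr 1; unfold Ck; ring
    rw [h8]
    exact Set.mul_mem_mul (Set.mul_mem_mul h6 h7) (inv_mem_pow hinv h6)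
  have hfinT : Finite ↥(T ^ (Ck k * D * R)) := by
    exact (finite_pow hfin _).to_subtype
  refine Nat.card_le_card_of_injective
    (fun x : Set.range _ => (⟨((x : Γ) : G), ?_⟩ : ↥(T ^ (Ck k * D * R)))) ?_
  · obtain ⟨_, δ, rfl⟩ := x
    exact hmem δ
  · intro x y hxy
    have h9 := congrArg (fun z : ↥(T ^ (Ck k * D * R)) => (z : G)) hxy
    exact Subtype.ext (Subtype.ext h9)

theorem thn (hG : S_GEO.{u}) (hL : S_LET.{u}) (hA : S_PTA.{u}) (hC : S_PTC.{u}) (hM : S_GAM.{u})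
    (hN : S_CNT.{u}) : S_THN.{u} := by
  intro G _ T hfin h1T hinv hgen k hk F _ Γ₀ _ v χ b hb c hc hbc hvc hne
  obtain ⟨hDD, hle⟩ := hM G T hinv hgen k hk
  obtain ⟨D, hD, g, c', d', e1, e2, e3, e4, e5⟩ := lines hG hL hA hC T hfin h1T hinv hgen k hk
    (gam G k) hDD hle F χ b hb c hc hbc hne
  have hb' : ∀ i, Crossed (χ.comp (cn (gam G k) (g i))) (fun m => b (cn (gam G k) (g i) m)) := by
    intro i m m'
    show b (cn _ (g i) (m * m')) = b (cn _ (g i) m) + (χ (cn _ (g i) m) : F) * b (cn _ (g i) m')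
    rw [map_mul, hb]
  obtain ⟨ε, hε⟩ := hN (gam G k) F Γ₀ v D _ _ hb' c' d' e1 e2 e3 (fun i => by
    show v (χ (cn _ (g i) (c' i)) : F) ≠ 1
    rw [e4]
    exact hvc)
  exact ⟨D, hD, fun R => (hε R).trans (Nat.pow_le_pow_left (e5 ε R) 4)⟩

end Pool.Agent.Helper43.NG
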